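import Mathlib

/-!
# Automorphisms of `ℂ` over countable rings
-/

set_option linter.unusedSectionVars false

namespace Pool.Agent.W944.En

open MvPolynomial

/-- Shifting one element of a transcendence basis by another. -/
lemma shift_hom {R : Type} [CommRing R] [Algebra R ℂ] {ι : Type} {v : ι → ℂ}
    (hv : IsTranscendenceBasis R v) {i0 j : ι} (hj : j ≠ i0) :
    ∃ τ : ℂ →+* ℂ, (∀ r, τ (algebraMap R ℂ r) = algebraMap R ℂ r) ∧
      τ (v i0) = v i0 + v j := by
  classical
  let e := hv.1.aevalEquiv
  let f1 : MvPolynomial ι R →ₐ[R] MvPolynomial ι R :=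
    aeval fun i => X i + if i = i0 then X j else 0
  let f2 : MvPolynomial ι R →ₐ[R] MvPolynomial ι R :=
    aeval fun i => X i - if i = i0 then X j else 0
  have h12 : f1.comp f2 = AlgHom.id R _ := by
    refine MvPolynomial.algHom_ext fun i => ?_
    simp only [AlgHom.comp_apply, f2, aeval_X, map_sub, f1, AlgHom.id_apply]
    by_cases hi : i = i0
    · simp only [hi, if_true, aeval_X, hj, if_false, add_zero, add_sub_cancel_right]
    · simp only [hi, if_false, add_zero, map_zero, sub_zero]
  have h21 : f2.comp f1 = AlgHom.id R _ := by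
    refine MvPolynomial.algHom_ext fun i => ?_
    simp only [AlgHom.comp_apply, f1, aeval_X, map_add, f2, AlgHom.id_apply]
    by_cases hi : i = i0
    · simp only [hi, if_true, aeval_X, hj, if_false, sub_zero, sub_add_cancel]
    · simp only [hi, if_false, sub_zero, map_zero, add_zero]
  let sh : MvPolynomial ι R ≃ₐ[R] MvPolynomial ι R := AlgEquiv.ofAlgHom f1 f2 h12 h21
  let E : Algebra.adjoin R (Set.range v) ≃ₐ[R] Algebra.adjoin R (Set.range v) :=
    (e.symm.trans sh).trans e
  have hE : ∀ p, E (e p) = e (f1 p) := by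
    intro p
    show e (sh (e.symm (e p))) = e (f1 p)
    rw [AlgEquiv.symm_apply_apply]
    rfl
  let _ := IsAlgClosed.isAlgClosure_of_transcendence_basis v hv
  let τ : ℂ ≃+* ℂ := IsAlgClosure.equivOfEquiv ℂ ℂ E.toRingEquiv
  have hτ : ∀ a : Algebra.adjoin R (Set.range v), τ (algebraMap _ ℂ a) = algebraMap _ ℂ (E a) :=
    fun a => IsAlgClosure.equivOfEquiv_algebraMap ℂ ℂ E.toRingEquiv a
  refine ⟨τ.toRingHom, fun r => ?_, ?_⟩
  · have h1 := hτ (algebraMap R _ r)
    rw [AlgEquiv.commutes] at h1
    exact h1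
  · have h1 := hτ (e (X i0))
    rw [hE] at h1
    have h2 : ∀ p, algebraMap (Algebra.adjoin R (Set.range v)) ℂ (e p) = aeval v p :=
      fun p => hv.1.algebraMap_aevalEquiv p
    rw [h2, h2, aeval_X] at h1
    have h3 : f1 (X i0) = X i0 + X j := by simp [f1]
    rw [h3, map_add, aeval_X, aeval_X] at h1
    exact h1

/-- Elements with countably many conjugates over a countable ring are algebraic. -/
theorem algebraic_of_countable {R : Type} [CommRing R] [Nontrivial R] [Countable R] [Algebra R ℂ]
    (y : ℂ) (Z : Set ℂ) (hZ : Z.Countable)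
    (H : ∀ τ : ℂ →+* ℂ, (∀ r, τ (algebraMap R ℂ r) = algebraMap R ℂ r) → τ y ∈ Z) :
    IsAlgebraic R y := by
  classical
  by_contra htr
  have h1 : AlgebraicIndepOn R id ({y} : Set ℂ) := by
    have : Subsingleton ({y} : Set ℂ) := by
      rw [Set.subsingleton_coe]; exact Set.subsingleton_singleton
    refine (algebraicIndependent_singleton_iff (⟨y, rfl⟩ : ({y} : Set ℂ))).mpr ?_
    exact htr
  obtain ⟨t, ht1, ht2⟩ := exists_isTranscendenceBasis_superset h1
  have hyt : y ∈ t := ht1 rfl
  let i0 : t := ⟨y, hyt⟩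
  have hcard := IsAlgClosed.cardinal_eq_cardinal_transcendence_basis_of_aleph0_lt' _ ht2
    (Cardinal.mk_le_aleph0_iff.mpr inferInstance)
    (by rw [Cardinal.mk_complex]; exact Cardinal.aleph0_lt_continuum)
  have hunc : ¬ Countable t := by
    rw [← Cardinal.mk_le_aleph0_iff, ← hcard, Cardinal.mk_complex, not_le]
    exact Cardinal.aleph0_lt_continuum
  apply hunc
  have hex : ∀ j : {j : t // j ≠ i0}, y + (j : t) ∈ Z := by
    intro j
    obtain ⟨τ, hτ1, hτ2⟩ := shift_hom ht2 j.2
    have := H τ hτ1
    have e : τ y = y + ((j : t) : ℂ) := hτ2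
    rwa [e] at this
  have hinj : Function.Injective fun j : {j : t // j ≠ i0} => (⟨_, hex j⟩ : Z) := by
    intro j j' hjj
    have h2 : y + ((j : t) : ℂ) = y + ((j' : t) : ℂ) := congrArg Subtype.val hjj
    exact Subtype.ext (Subtype.ext (add_left_cancel h2))
  have hc1 : Countable Z := hZ
  have hc2 : Countable {j : t // j ≠ i0} := hinj.countable
  have hc3 : ({j : t | j ≠ i0}).Countable := hc2
  have hc4 : (Set.univ : Set t).Countable := by
    have : (Set.univ : Set t) = {j : t | j ≠ i0} ∪ {i0} := by
      ext j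
      simp only [Set.mem_univ, Set.mem_union, Set.mem_ofPred_eq, Set.mem_singleton_iff, true_iff]
      exact (em (j = i0)).symm
    rw [this]
    exact hc3.union (Set.countable_singleton _)
  exact Set.countable_univ_iff.mp hc4

/-- Algebraically independent complex numbers over a countable field. -/
theorem exists_indep (k : Type) [Field k] [Countable k] [Algebra k ℂ] (κ : Type) [Finite κ] :
    ∃ z : κ → ℂ, AlgebraicIndependent k z := by
  obtain ⟨ι, v, hv⟩ := exists_isTranscendenceBasis' k ℂ
  have hcard := IsAlgClosed.cardinal_eq_cardinal_transcendence_basis_of_aleph0_lt' _ hv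
    (Cardinal.mk_le_aleph0_iff.mpr inferInstance)
    (by rw [Cardinal.mk_complex]; exact Cardinal.aleph0_lt_continuum)
  have hinf : Infinite ι := by
    rw [Cardinal.infinite_iff, ← hcard, Cardinal.mk_complex]
    exact Cardinal.aleph0_le_continuum
  obtain ⟨m, ⟨eκ⟩⟩ := Finite.exists_equiv_fin κ
  let f : κ → ι := fun x => Infinite.natEmbedding ι (eκ x)
  have hf : Function.Injective f := fun a b hab =>
    eκ.injective (Fin.ext ((Infinite.natEmbedding ι).injective hab))
  exact ⟨v ∘ f, hv.1.comp f hf⟩

end Pool.Agent.W944.En
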