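import Pool.Agent.W944.En.Core

/-!
# The identity over `ℂ` bounds the exponent
-/

set_option linter.unusedSectionVars false

namespace Pool.Agent.W944.En

open Pool.Agent.W966.Mm Pool.Agent.H515R2.MMR Module Filter

/-- **Transfer from the ultrapower.** -/
theorem transfer {I : Type} {𝒰 : Ultrafilter I} {n K h l : ℕ} {T : Finset ℕ}
    (H : SysE (Fu 𝒰) n K h l T) : SysE ℂ n K h l T := by
  classical
  obtain ⟨dX, N, J, J', p1, q1, p2, q2, e, c, h1, h2, h3⟩ := H
  let r : Fu 𝒰 → I → ℂ := Function.surjInv co_surj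
  have hr : ∀ x, co 𝒰 (r x) = x := Function.surjInv_eq co_surj
  have hone : ∀ P : Prop, [Decidable P] → co 𝒰 (fun _ => if P then (1 : ℂ) else 0) =
      if P then 1 else 0 := by
    intro P _
    by_cases hP : P
    · simp only [hP, if_true]; exact map_one (co 𝒰)
    · simp only [hP, if_false]; exact map_zero (co 𝒰)
  have E1 : ∀ᶠ S in (𝒰 : Filter I), ∀ i j, ∑ x, ∑ y, r (N i x y) S * r (dX j x y) S =
      if i = j then 1 else 0 := by
    rw [Filter.eventually_all]
    intro i
    rw [Filter.eventually_all]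
    intro j
    have : co 𝒰 (∑ x, ∑ y, r (N i x y) * r (dX j x y)) =
        co 𝒰 (fun _ => if i = j then (1 : ℂ) else 0) := by
      rw [hone, map_sum]
      simp only [map_sum, map_mul, hr, h1]
    filter_upwards [co_eq.mp this] with S hS
    simpa only [Finset.sum_apply, Pi.mul_apply] using hS
  have E2 : ∀ᶠ S in (𝒰 : Filter I), ∀ u v, ∑ x, ∑ y, r (J u x y) S * r (J' v x y) S =
      if u = v then 1 else 0 := by
    rw [Filter.eventually_all]
    intro u
    rw [Filter.eventually_all]
    intro v
    have : co 𝒰 (∑ x, ∑ y, r (J u x y) * r (J' v x y)) =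
        co 𝒰 (fun _ => if u = v then (1 : ℂ) else 0) := by
      rw [hone, map_sum]
      simp only [map_sum, map_mul, hr, h2]
    filter_upwards [co_eq.mp this] with S hS
    simpa only [Finset.sum_apply, Pi.mul_apply] using hS
  have E3 : ∀ᶠ S in (𝒰 : Filter I), ∀ i x y u, ∑ a, r (J u a y) S * r (dX i a x) S =
      ∑ t ∈ Finset.range l, (if t ∈ T then r (e t i x y) S else
        r (p1 t i) S * r (q2 t x y) S + r (p2 t x y) S * r (q1 t i) S) * r (c t u) S := by
    rw [Filter.eventually_all]
    intro i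
    rw [Filter.eventually_all]
    intro x
    rw [Filter.eventually_all]
    intro y
    rw [Filter.eventually_all]
    intro u
    have : co 𝒰 (∑ a, r (J u a y) * r (dX i a x)) =
        co 𝒰 (∑ t ∈ Finset.range l, (if t ∈ T then r (e t i x y) else
        r (p1 t i) * r (q2 t x y) + r (p2 t x y) * r (q1 t i)) * r (c t u)) := by
      rw [map_sum, map_sum]
      simp only [map_mul, hr, h3]
      refine Finset.sum_congr rfl fun t _ => ?_
      by_cases ht : t ∈ T
      · simp only [ht, if_true, hr]
      · simp only [ht, if_false, map_add, map_mul, hr]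
    filter_upwards [co_eq.mp this] with S hS
    rw [Finset.sum_apply, Finset.sum_apply] at hS
    simp only [Pi.mul_apply] at hS
    rw [hS]
    refine Finset.sum_congr rfl fun t _ => ?_
    by_cases ht : t ∈ T
    · simp only [ht, if_true]
    · simp only [ht, if_false, Pi.add_apply, Pi.mul_apply]
  obtain ⟨S, ⟨hS1, hS2⟩, hS3⟩ := ((E1.and E2).and E3).exists
  exact ⟨fun i => Matrix.of fun x y => r (dX i x y) S, fun i x y => r (N i x y) S,
    fun u => Matrix.of fun x y => r (J u x y) S, fun u x y => r (J' u x y) S,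
    fun t i => r (p1 t i) S, fun t i => r (q1 t i) S, fun t x y => r (p2 t x y) S,
    fun t x y => r (q2 t x y) S, fun t i x y => r (e t i x y) S, fun t u => r (c t u) S,
    hS1, hS2, hS3⟩

/-- The linear functional with the given coefficients. -/
def fn {n : ℕ} (a : Fin n → Fin n → ℂ) : Mat n →ₗ[ℂ] ℂ where
  toFun A := ∑ x, ∑ y, a x y * A x y
  map_add' A B := by
    simp only [Matrix.add_apply, mul_add, Finset.sum_add_distrib]
  map_smul' r A := by
    simp only [Matrix.smul_apply, smul_eq_mul, RingHom.id_apply, Finset.mul_sum]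
    exact Finset.sum_congr rfl fun x _ => Finset.sum_congr rfl fun y _ => by ring

lemma fn_apply {n : ℕ} (a : Fin n → Fin n → ℂ) (A : Mat n) :
    fn a A = ∑ x, ∑ y, a x y * A x y := rfl

section

variable {n K h l : ℕ} {T : Finset ℕ}

/-- **The identity over `ℂ` bounds the exponent.** -/
theorem sys_omega (H : SysE ℂ n K h l T) (hT : T ⊆ Finset.range l) {L q : ℕ}
    (hl : l ≤ L + T.card) (hdim : n ^ 2 + 3 * q * n + T.card < h + K) :
    ((q : ℝ) + 1) ^ omega ≤ 2 * L := by
  classical
  obtain ⟨dX, N, J, J', p1, q1, p2, q2, e, c, h1, h2, h3⟩ := H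
  let Φ : (Fin h → ℂ) →ₗ[ℂ] Mat n := Fintype.linearCombination ℂ dX
  let Ψ : (Fin K → ℂ) →ₗ[ℂ] Mat n := Fintype.linearCombination ℂ fun u => (J u).transpose
  have hΦ : ∀ w, Φ w = ∑ i, w i • dX i := fun w => Fintype.linearCombination_apply _ _ _
  have hΨ : ∀ w, Ψ w = ∑ u, w u • (J u).transpose := fun w =>
    Fintype.linearCombination_apply _ _ _
  -- recovering the coordinates
  have hΦ' : ∀ w i, fn (N i) (Φ w) = w i := by
    intro w i
    rw [hΦ, map_sum]
    simp only [map_smul, smul_eq_mul]
    have : ∀ j, fn (N i) (dX j) = if i = j then 1 else 0 := fun j => by rw [fn_apply, h1]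
    simp only [this, mul_ite, mul_one, mul_zero, Finset.sum_ite_eq, Finset.mem_univ, if_true]
  have hΨ' : ∀ w u, fn (fun y x => J' u x y) (Ψ w) = w u := by
    intro w u
    rw [hΨ, map_sum]
    simp only [map_smul, smul_eq_mul]
    have : ∀ v, fn (fun y x => J' u x y) (J v).transpose = if v = u then 1 else 0 := fun v => by
      rw [fn_apply, Finset.sum_comm, ← h2]
      exact Finset.sum_congr rfl fun x _ => Finset.sum_congr rfl fun y _ => by
        rw [Matrix.transpose_apply, mul_comm]
    simp only [this, mul_ite, mul_one, mul_zero, Finset.sum_ite_eq', Finset.mem_univ, if_true]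
  have hΦi : Function.Injective Φ := fun w w' hw => funext fun i => by
    rw [← hΦ' w i, hw, hΦ']
  have hΨi : Function.Injective Ψ := fun w w' hw => funext fun i => by
    rw [← hΨ' w i, hw, hΨ']
  let Γ : (Fin K → ℂ) →ₗ[ℂ] (T → ℂ) :=
    { toFun := fun w t => ∑ u, w u * c t u
      map_add' := fun w w' => by
        funext t
        simp only [Pi.add_apply, add_mul, Finset.sum_add_distrib]
      map_smul' := fun r w => by
        funext t
        simp only [Pi.smul_apply, smul_eq_mul, RingHom.id_apply, Finset.mul_sum, mul_assoc] }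
  set U : Submodule ℂ (Mat n) := LinearMap.range Φ with hU
  set W : Submodule ℂ (Mat n) := (LinearMap.ker Γ).map Ψ with hW
  have hUd : finrank ℂ U = h := by
    rw [hU, LinearMap.finrank_range_of_inj hΦi, finrank_fin_fun]
  have hWd : K ≤ finrank ℂ W + T.card := by
    have e1 : finrank ℂ W = finrank ℂ (LinearMap.ker Γ) :=
      LinearEquiv.finrank_eq (Submodule.equivMapOfInjective Ψ hΨi _).symm
    have e2 := LinearMap.finrank_range_add_finrank_ker Γ
    have e3 : finrank ℂ (LinearMap.range Γ) ≤ T.card := by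
      have := Submodule.finrank_le (LinearMap.range Γ)
      rwa [Module.finrank_fintype_fun_eq_card, Fintype.card_coe] at this
    rw [finrank_fin_fun] at e2
    omega
  -- the trilinear form
  have hbase : ∀ i u (B : Mat n), (dX i * B * (J u).transpose).trace =
      ∑ x, ∑ y, B x y * ∑ a, J u a y * dX i a x := by
    intro i u B
    simp only [Matrix.trace, Matrix.diag_apply, Matrix.mul_apply, Matrix.transpose_apply,
      Finset.sum_mul, Finset.mul_sum]
    rw [Finset.sum_congr rfl fun a _ => Finset.sum_comm, Finset.sum_comm]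
    refine Finset.sum_congr rfl fun x _ => ?_
    rw [Finset.sum_comm]
    exact Finset.sum_congr rfl fun y _ => Finset.sum_congr rfl fun a _ => by ring
  let E : ℕ → Fin h → Fin n → Fin n → ℂ := fun t i x y =>
    if t ∈ T then e t i x y else p1 t i * q2 t x y + p2 t x y * q1 t i
  have hE : ∀ i x y u, ∑ a, J u a y * dX i a x = ∑ t ∈ Finset.range l, E t i x y * c t u :=
    fun i x y u => h3 i x y u
  -- a generic exchange of sums
  have hsw1 : ∀ (b : Fin n → Fin n → ℂ) (a : ℕ → Fin n → Fin n → ℂ) (d : ℕ → ℂ),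
      ∑ x, ∑ y, b x y * ∑ t ∈ Finset.range l, a t x y * d t =
        ∑ t ∈ Finset.range l, (∑ x, ∑ y, b x y * a t x y) * d t := by
    intro b a d
    have e1 : ∀ x, ∑ y, b x y * ∑ t ∈ Finset.range l, a t x y * d t =
        ∑ t ∈ Finset.range l, (∑ y, b x y * a t x y) * d t := by
      intro x
      simp only [Finset.mul_sum, Finset.sum_mul]
      rw [Finset.sum_comm]
      exact Finset.sum_congr rfl fun t _ => Finset.sum_congr rfl fun y _ => by ring
    simp only [e1, Finset.sum_mul]
    rw [Finset.sum_comm]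
  have hsw2 : ∀ (w : Fin h → ℂ) (v : Fin K → ℂ) (a : ℕ → Fin h → ℂ),
      ∑ i, ∑ u, w i * v u * ∑ t ∈ Finset.range l, a t i * c t u =
        ∑ t ∈ Finset.range l, (∑ i, w i * a t i) * ∑ u, v u * c t u := by
    intro w v a
    have e1 : ∀ i, ∑ u, w i * v u * ∑ t ∈ Finset.range l, a t i * c t u =
        ∑ t ∈ Finset.range l, (w i * a t i) * ∑ u, v u * c t u := by
      intro i
      simp only [Finset.mul_sum]
      rw [Finset.sum_comm]
      exact Finset.sum_congr rfl fun t _ => Finset.sum_congr rfl fun y _ => by ring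
    simp only [e1, Finset.sum_mul]
    rw [Finset.sum_comm]
  have key : ∀ (w : Fin h → ℂ) (v : Fin K → ℂ) (B : Matrix (Fin n) (Fin n) ℂ),
      (Φ w * B * Ψ v).trace =
      ∑ t ∈ Finset.range l, (∑ i, w i * ∑ x, ∑ y, B x y * E t i x y) * ∑ u, v u * c t u := by
    intro w v B
    have e1 : (Φ w * B * Ψ v).trace = ∑ i, ∑ u, w i * v u *
        (dX i * B * (J u).transpose).trace := by
      rw [hΦ, hΨ, Finset.sum_mul, Finset.sum_mul, Matrix.trace_sum]
      refine Finset.sum_congr rfl fun i _ => ?_
      rw [Finset.mul_sum, Matrix.trace_sum]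
      refine Finset.sum_congr rfl fun u _ => ?_
      rw [Matrix.smul_mul, Matrix.smul_mul, Matrix.mul_smul, Matrix.trace_smul,
        Matrix.trace_smul, smul_eq_mul, smul_eq_mul]
      ring
    have e2 : ∀ i u, (dX i * B * (J u).transpose).trace = ∑ t ∈ Finset.range l,
        (∑ x, ∑ y, B x y * E t i x y) * c t u := fun i u => by
      rw [hbase]
      simp only [hE]
      exact hsw1 _ (fun t x y => E t i x y) (fun t => c t u)
    rw [e1]
    simp only [e2]
    exact hsw2 w v (fun t i => ∑ x, ∑ y, B x y * E t i x y)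
  have hfin : ∀ t, t ∉ T → ∀ (w : Fin h → ℂ) (B : Matrix (Fin n) (Fin n) ℂ),
      ∑ i, w i * ∑ x, ∑ y, B x y * E t i x y =
        (∑ i, w i * p1 t i) * fn (q2 t) B + (∑ i, w i * q1 t i) * fn (p2 t) B := by
    intro t ht w B
    have e1 : ∀ i, w i * ∑ x, ∑ y, B x y * E t i x y =
        w i * p1 t i * fn (q2 t) B + w i * q1 t i * fn (p2 t) B := by
      intro i
      have e2 : ∑ x, ∑ y, B x y * E t i x y = p1 t i * fn (q2 t) B + q1 t i * fn (p2 t) B := by
        rw [fn_apply, fn_apply, Finset.mul_sum, Finset.mul_sum, ← Finset.sum_add_distrib]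
        refine Finset.sum_congr rfl fun x _ => ?_
        rw [Finset.mul_sum, Finset.mul_sum, ← Finset.sum_add_distrib]
        refine Finset.sum_congr rfl fun y _ => ?_
        simp only [E, ht, if_false]
        ring
      rw [e2]
      ring
    simp only [e1, Finset.sum_add_distrib, ← Finset.sum_mul]
  -- the rank bound
  let ι : Type := {t // t ∈ Finset.range l \ T} × Fin 2
  have hcard : Fintype.card ι ≤ 2 * L := by
    show Fintype.card ({t // t ∈ Finset.range l \ T} × Fin 2) ≤ 2 * L
    rw [Fintype.card_prod, Fintype.card_coe, Fintype.card_fin, Finset.card_sdiff_of_subset hT,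
      Finset.card_range]
    omega
  have hrank : HasRestrRank U ⊤ W (Fintype.card ι) := by
    let eq := (Fintype.equivFin ι).symm
    let f1 : ι → (Mat n →ₗ[ℂ] ℂ) := fun t => if t.2 = 0 then
      ∑ i, p1 t.1 i • fn (N i) else ∑ i, q1 t.1 i • fn (N i)
    let f2 : ι → (Mat n →ₗ[ℂ] ℂ) := fun t => if t.2 = 0 then fn (q2 t.1) else fn (p2 t.1)
    let f3 : ι → (Mat n →ₗ[ℂ] ℂ) := fun t => ∑ u, c t.1 u • fn (fun y x => J' u x y)
    refine ⟨fun t => f1 (eq t), fun t => f2 (eq t), fun t => f3 (eq t), ?_⟩
    rintro A ⟨w, rfl⟩ B - C ⟨v, hv, rfl⟩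
    have hv' : ∀ t ∈ T, ∑ u, v u * c t u = 0 := fun t ht => congrFun (show Γ v = 0 from hv) ⟨t, ht⟩
    have hf3 : ∀ t : ι, f3 t (Ψ v) = ∑ u, v u * c t.1 u := by
      intro t
      simp only [f3, LinearMap.sum_apply, LinearMap.smul_apply, smul_eq_mul, hΨ']
      exact Finset.sum_congr rfl fun u _ => mul_comm _ _
    have hf1 : ∀ t : {t // t ∈ Finset.range l \ T}, f1 (t, 0) (Φ w) = ∑ i, w i * p1 t i := by
      intro t
      simp only [f1, if_true, LinearMap.sum_apply, LinearMap.smul_apply, smul_eq_mul, hΦ']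
      exact Finset.sum_congr rfl fun u _ => mul_comm _ _
    have hf1' : ∀ t : {t // t ∈ Finset.range l \ T}, f1 (t, 1) (Φ w) = ∑ i, w i * q1 t i := by
      intro t
      simp only [f1, one_ne_zero, if_false, LinearMap.sum_apply, LinearMap.smul_apply,
        smul_eq_mul, hΦ']
      exact Finset.sum_congr rfl fun u _ => mul_comm _ _
    rw [key w v B]
    have e2 : ∑ t ∈ Finset.range l, (∑ i, w i * ∑ x, ∑ y, B x y * E t i x y) * ∑ u, v u * c t u =
        ∑ t : ι, f1 t (Φ w) * f2 t B * f3 t (Ψ v) := by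
      rw [Fintype.sum_prod_type]
      rw [← Finset.sum_sdiff hT, Finset.sum_eq_zero (s := T) (fun t ht => by
        rw [hv' t ht, mul_zero]), add_zero, ← Finset.sum_coe_sort]
      refine Finset.sum_congr rfl fun t _ => ?_
      have ht : (t : ℕ) ∉ T := (Finset.mem_sdiff.mp t.2).2
      rw [Fin.sum_univ_two, hf1, hf1', hf3, hfin t ht]
      simp only [f2, if_true, one_ne_zero, if_false]
      ring
    rw [e2, ← Equiv.sum_comp eq]
  have hb := rank_bound (q := q) U ⊤ W hrank (by
    have h5 : finrank ℂ (⊤ : Submodule ℂ (Mat n)) = n ^ 2 := by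
      rw [finrank_top]
      show finrank ℂ (Matrix (Fin n) (Fin n) ℂ) = n ^ 2
      rw [Module.finrank_matrix, Module.finrank_self, Fintype.card_fin, mul_one, pow_two]
    rw [h5, hUd]
    omega)
  exact hb.trans (by exact_mod_cast hcard)

end

end Pool.Agent.W944.En
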