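import Pool.Agent.W944.En.Bound
import Pool.Agent.W966.Mm.ConstAsym

/-!
# The identity over `ℂ` bounds the rank
-/

set_option linter.unusedSectionVars false

namespace Pool.Agent.W944.En

open Pool.Agent.W966.Mm Pool.Agent.H515R2.MMR Module

/-- A trilinear form of the trace of a triple product gives a decomposition. -/
lemma hasRank_of_trilin {ι : Type} [Fintype ι] {m r : ℕ}
    (f g h : ι → (Matrix (Fin m) (Fin m) ℂ →ₗ[ℂ] ℂ))
    (H : ∀ x y z : Matrix (Fin m) (Fin m) ℂ, (x * y * z).trace = ∑ t, f t x * g t y * h t z)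
    (hr : Fintype.card ι ≤ r) : HasRank m r := by
  classical
  refine hasRank_of_bilin f g (fun t => Matrix.of fun a b => h t (Matrix.single b a 1)) ?_ hr
  intro x y
  refine Matrix.ext fun a b => ?_
  have h1 := H x y (Matrix.single b a 1)
  rw [Matrix.trace_mul_comm, Matrix.trace_single_mul, one_smul] at h1
  rw [h1, Matrix.sum_apply]
  rfl

section

variable {n K h l : ℕ} {T : Finset ℕ}

/-- **The trilinear form.** -/
theorem sys_form (H : SysE ℂ n K h l T) :
    ∃ (Φ : (Fin h → ℂ) →ₗ[ℂ] Mat n) (Ψ : (Fin K → ℂ) →ₗ[ℂ] Mat n)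
      (Ψ' : Mat n →ₗ[ℂ] (Fin K → ℂ)) (a1 a2 : ℕ → ((Fin h → ℂ) →ₗ[ℂ] ℂ))
      (b1 b2 : ℕ → (Mat n →ₗ[ℂ] ℂ)) (d : ℕ → ((Fin K → ℂ) →ₗ[ℂ] ℂ))
      (E : ℕ → (Fin h → ℂ) → Mat n → ℂ),
      Function.Injective Φ ∧ (∀ v, Ψ' (Ψ v) = v) ∧
      ∀ w v B, (Φ w * B * Ψ v).trace = ∑ t ∈ Finset.range l,
        (if t ∈ T then E t w B else a1 t w * b1 t B + a2 t w * b2 t B) * d t v := by
  classical
  obtain ⟨dX, N, J, J', p1, q1, p2, q2, e, c, h1, h2, h3⟩ := H
  let Φ : (Fin h → ℂ) →ₗ[ℂ] Mat n := Fintype.linearCombination ℂ dX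
  let Ψ : (Fin K → ℂ) →ₗ[ℂ] Mat n := Fintype.linearCombination ℂ fun u => (J u).transpose
  have hΦ : ∀ w, Φ w = ∑ i, w i • dX i := fun w => Fintype.linearCombination_apply _ _ _
  have hΨ : ∀ w, Ψ w = ∑ u, w u • (J u).transpose := fun w =>
    Fintype.linearCombination_apply _ _ _
  -- recovering the coordinates
  have hΦ' : ∀ w i, fn (N i) (Φ w) = w i := by
    intro w i
    rw [hΦ, map_sum]
    simp only [map_smul, smul_eq_mul]
    have : ∀ j, fn (N i) (dX j) = if i = j then 1 else 0 := fun j => by rw [fn_apply, h1]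
    simp only [this, mul_ite, mul_one, mul_zero, Finset.sum_ite_eq, Finset.mem_univ, if_true]
  have hΨ' : ∀ w u, fn (fun y x => J' u x y) (Ψ w) = w u := by
    intro w u
    rw [hΨ, map_sum]
    simp only [map_smul, smul_eq_mul]
    have : ∀ v, fn (fun y x => J' u x y) (J v).transpose = if v = u then 1 else 0 := fun v => by
      rw [fn_apply, Finset.sum_comm, ← h2]
      exact Finset.sum_congr rfl fun x _ => Finset.sum_congr rfl fun y _ => by
        rw [Matrix.transpose_apply, mul_comm]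
    simp only [this, mul_ite, mul_one, mul_zero, Finset.sum_ite_eq', Finset.mem_univ, if_true]
  have hΦi : Function.Injective Φ := fun w w' hw => funext fun i => by
    rw [← hΦ' w i, hw, hΦ']
  have hΨi : Function.Injective Ψ := fun w w' hw => funext fun i => by
    rw [← hΨ' w i, hw, hΨ']
  -- the trilinear form
  have hbase : ∀ i u (B : Mat n), (dX i * B * (J u).transpose).trace =
      ∑ x, ∑ y, B x y * ∑ a, J u a y * dX i a x := by
    intro i u B
    simp only [Matrix.trace, Matrix.diag_apply, Matrix.mul_apply, Matrix.transpose_apply,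
      Finset.sum_mul, Finset.mul_sum]
    rw [Finset.sum_congr rfl fun a _ => Finset.sum_comm, Finset.sum_comm]
    refine Finset.sum_congr rfl fun x _ => ?_
    rw [Finset.sum_comm]
    exact Finset.sum_congr rfl fun y _ => Finset.sum_congr rfl fun a _ => by ring
  let E : ℕ → Fin h → Fin n → Fin n → ℂ := fun t i x y =>
    if t ∈ T then e t i x y else p1 t i * q2 t x y + p2 t x y * q1 t i
  have hE : ∀ i x y u, ∑ a, J u a y * dX i a x = ∑ t ∈ Finset.range l, E t i x y * c t u :=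
    fun i x y u => h3 i x y u
  -- a generic exchange of sums
  have hsw1 : ∀ (b : Fin n → Fin n → ℂ) (a : ℕ → Fin n → Fin n → ℂ) (d : ℕ → ℂ),
      ∑ x, ∑ y, b x y * ∑ t ∈ Finset.range l, a t x y * d t =
        ∑ t ∈ Finset.range l, (∑ x, ∑ y, b x y * a t x y) * d t := by
    intro b a d
    have e1 : ∀ x, ∑ y, b x y * ∑ t ∈ Finset.range l, a t x y * d t =
        ∑ t ∈ Finset.range l, (∑ y, b x y * a t x y) * d t := by
      intro x
      simp only [Finset.mul_sum, Finset.sum_mul]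
      rw [Finset.sum_comm]
      exact Finset.sum_congr rfl fun t _ => Finset.sum_congr rfl fun y _ => by ring
    simp only [e1, Finset.sum_mul]
    rw [Finset.sum_comm]
  have hsw2 : ∀ (w : Fin h → ℂ) (v : Fin K → ℂ) (a : ℕ → Fin h → ℂ),
      ∑ i, ∑ u, w i * v u * ∑ t ∈ Finset.range l, a t i * c t u =
        ∑ t ∈ Finset.range l, (∑ i, w i * a t i) * ∑ u, v u * c t u := by
    intro w v a
    have e1 : ∀ i, ∑ u, w i * v u * ∑ t ∈ Finset.range l, a t i * c t u =
        ∑ t ∈ Finset.range l, (w i * a t i) * ∑ u, v u * c t u := by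
      intro i
      simp only [Finset.mul_sum]
      rw [Finset.sum_comm]
      exact Finset.sum_congr rfl fun t _ => Finset.sum_congr rfl fun y _ => by ring
    simp only [e1, Finset.sum_mul]
    rw [Finset.sum_comm]
  have key : ∀ (w : Fin h → ℂ) (v : Fin K → ℂ) (B : Matrix (Fin n) (Fin n) ℂ),
      (Φ w * B * Ψ v).trace =
      ∑ t ∈ Finset.range l, (∑ i, w i * ∑ x, ∑ y, B x y * E t i x y) * ∑ u, v u * c t u := by
    intro w v B
    have e1 : (Φ w * B * Ψ v).trace = ∑ i, ∑ u, w i * v u *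
        (dX i * B * (J u).transpose).trace := by
      rw [hΦ, hΨ, Finset.sum_mul, Finset.sum_mul, Matrix.trace_sum]
      refine Finset.sum_congr rfl fun i _ => ?_
      rw [Finset.mul_sum, Matrix.trace_sum]
      refine Finset.sum_congr rfl fun u _ => ?_
      rw [Matrix.smul_mul, Matrix.smul_mul, Matrix.mul_smul, Matrix.trace_smul,
        Matrix.trace_smul, smul_eq_mul, smul_eq_mul]
      ring
    have e2 : ∀ i u, (dX i * B * (J u).transpose).trace = ∑ t ∈ Finset.range l,
        (∑ x, ∑ y, B x y * E t i x y) * c t u := fun i u => by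
      rw [hbase]
      simp only [hE]
      exact hsw1 _ (fun t x y => E t i x y) (fun t => c t u)
    rw [e1]
    simp only [e2]
    exact hsw2 w v (fun t i => ∑ x, ∑ y, B x y * E t i x y)
  have hfin : ∀ t, t ∉ T → ∀ (w : Fin h → ℂ) (B : Matrix (Fin n) (Fin n) ℂ),
      ∑ i, w i * ∑ x, ∑ y, B x y * E t i x y =
        (∑ i, w i * p1 t i) * fn (q2 t) B + (∑ i, w i * q1 t i) * fn (p2 t) B := by
    intro t ht w B
    have e1 : ∀ i, w i * ∑ x, ∑ y, B x y * E t i x y =
        w i * p1 t i * fn (q2 t) B + w i * q1 t i * fn (p2 t) B := by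
      intro i
      have e2 : ∑ x, ∑ y, B x y * E t i x y = p1 t i * fn (q2 t) B + q1 t i * fn (p2 t) B := by
        rw [fn_apply, fn_apply, Finset.mul_sum, Finset.mul_sum, ← Finset.sum_add_distrib]
        refine Finset.sum_congr rfl fun x _ => ?_
        rw [Finset.mul_sum, Finset.mul_sum, ← Finset.sum_add_distrib]
        refine Finset.sum_congr rfl fun y _ => ?_
        simp only [E, ht, if_false]
        ring
      rw [e2]
      ring
    simp only [e1, Finset.sum_add_distrib, ← Finset.sum_mul]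
  let dt : {m : ℕ} → (Fin m → ℂ) → ((Fin m → ℂ) →ₗ[ℂ] ℂ) := fun {m} c =>
    { toFun := fun w => ∑ i, w i * c i
      map_add' := fun w w' => by
        simp only [Pi.add_apply, add_mul, Finset.sum_add_distrib]
      map_smul' := fun r w => by
        simp only [Pi.smul_apply, smul_eq_mul, RingHom.id_apply, Finset.mul_sum, mul_assoc] }
  let Ψ' : Mat n →ₗ[ℂ] (Fin K → ℂ) := LinearMap.pi fun u => fn (fun y x => J' u x y)
  refine ⟨Φ, Ψ, Ψ', fun t => dt (p1 t), fun t => dt (q1 t), fun t => fn (q2 t),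
    fun t => fn (p2 t), fun t => dt (c t), fun t w B => ∑ i, w i * ∑ x, ∑ y, B x y * E t i x y,
    hΦi, fun v => funext fun u => hΨ' v u, fun w v B => ?_⟩
  rw [key w v B]
  refine Finset.sum_congr rfl fun t _ => ?_
  by_cases ht : t ∈ T
  · simp only [ht, if_true]
    rfl
  · simp only [ht, if_false]
    rw [hfin t ht]
    rfl

/-- **The rank bound, for `K = n ^ 2` and without queries.** -/
theorem sys_const (H : SysE ℂ n (n ^ 2) h l ∅) {L m : ℕ} (hl : l ≤ L) (hm : m ≤ n)
    (hdim : n ^ 2 < h + (n - m + 1) ^ 2) : HasRank m (2 * L) := by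
  classical
  obtain ⟨Φ, Ψ, Ψ', a1, a2, b1, b2, d, E, hΦ, hΨ, key⟩ := sys_form H
  have hcomp : Ψ' ∘ₗ Ψ = LinearMap.id := LinearMap.ext hΨ
  have hΨs : ∀ C, Ψ (Ψ' C) = C := by
    have hinj : Function.Injective Ψ := fun a b hab => by rw [← hΨ a, hab, hΨ]
    have hd : finrank ℂ (Fin (n ^ 2) → ℂ) = finrank ℂ (Mat n) := by
      show finrank ℂ (Fin (n ^ 2) → ℂ) = finrank ℂ (Matrix (Fin n) (Fin n) ℂ)
      rw [finrank_fin_fun, Module.finrank_matrix, Module.finrank_self, Fintype.card_fin,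
        mul_one, pow_two]
    have hsurj := (LinearMap.injective_iff_surjective_of_finrank_eq_finrank hd).mp hinj
    intro C
    obtain ⟨v, rfl⟩ := hsurj C
    rw [hΨ]
  obtain ⟨R, P, sec, hsec⟩ := exists_compress (a := n) (b := n) (m := m) (d := h) hm hm Φ
    (by rw [LinearMap.finrank_range_of_inj hΦ, finrank_fin_fun])
    (by rw [← pow_two, ← pow_two]; exact hdim)
  obtain ⟨S2, S1, -, hS⟩ := ker_fact (K := ℂ) (m := m) (s := 0) (n := n) (by omega) 0
  -- `S1 * S2 = 1`, `S1` is `m × n`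
  let β : Matrix (Fin m) (Fin m) ℂ →ₗ[ℂ] Mat n :=
    mulLeftLinearMap (Fin n) ℂ P ∘ₗ mulRightLinearMap (Fin m) ℂ S1
  let γ : Matrix (Fin m) (Fin m) ℂ →ₗ[ℂ] Mat n :=
    mulLeftLinearMap (Fin n) ℂ S2 ∘ₗ mulRightLinearMap (Fin m) ℂ R
  have hβ : ∀ y, β y = P * (y * S1) := fun _ => rfl
  have hγ : ∀ z, γ z = S2 * (z * R) := fun _ => rfl
  refine hasRank_of_trilin (ι := Fin l × Fin 2)
    (fun t => if t.2 = 0 then a1 t.1 ∘ₗ sec else a2 t.1 ∘ₗ sec)
    (fun t => if t.2 = 0 then b1 t.1 ∘ₗ β else b2 t.1 ∘ₗ β)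
    (fun t => d t.1 ∘ₗ Ψ' ∘ₗ γ) ?_ (by
      rw [Fintype.card_prod, Fintype.card_fin, Fintype.card_fin]; omega)
  intro x y z
  have h1 := key (sec x) (Ψ' (γ z)) (β y)
  rw [hΨs] at h1
  have h2 : (Φ (sec x) * β y * γ z).trace = (x * y * z).trace := by
    rw [hβ, hγ]
    have e1 : Φ (sec x) * (P * (y * S1)) * (S2 * (z * R)) =
        Φ (sec x) * P * y * (S1 * S2) * z * R := by
      simp only [Matrix.mul_assoc]
    rw [e1, hS, Matrix.mul_one, Matrix.trace_mul_comm]
    have e2 : R * (Φ (sec x) * P * y * z) = (R * Φ (sec x) * P) * y * z := by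
      simp only [Matrix.mul_assoc]
    rw [e2, hsec]
  rw [h2] at h1
  rw [h1, Finset.sum_range, Fintype.sum_prod_type]
  refine Finset.sum_congr rfl fun t _ => ?_
  rw [Fin.sum_univ_two]
  simp only [Finset.notMem_empty, if_false, if_true, one_ne_zero, LinearMap.comp_apply]
  ring

end

end Pool.Agent.W944.En
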