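import Pool.Agent.W944.En.Hess
import Pool.Agent.W966.Mm.RankErr

/-!
# From a run at a generic point to an identity
-/

set_option linter.unusedSectionVars false

namespace Pool.Agent.W944.En

open Pool.Agent.W966.Mm Pool.Agent.H53R3 Module

/-- The identity. -/
def SysE (R : Type) [Field R] (n K h l : ℕ) (T : Finset ℕ) : Prop :=
  ∃ (dX : Fin h → Matrix (Fin n) (Fin n) R) (N : Fin h → Fin n → Fin n → R)
    (J : Fin K → Matrix (Fin n) (Fin n) R) (J' : Fin K → Fin n → Fin n → R)
    (p1 q1 : ℕ → Fin h → R) (p2 q2 : ℕ → Fin n → Fin n → R)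
    (e : ℕ → Fin h → Fin n → Fin n → R) (c : ℕ → Fin K → R),
    (∀ i j, ∑ x, ∑ y, N i x y * dX j x y = if i = j then 1 else 0) ∧
    (∀ u v, ∑ x, ∑ y, J u x y * J' v x y = if u = v then 1 else 0) ∧
    ∀ i x y u, ∑ r, J u r y * dX i r x = ∑ t ∈ Finset.range l,
      (if t ∈ T then e t i x y else p1 t i * q2 t x y + p2 t x y * q1 t i) * c t u

section

variable {F : Type} [Field F] {κ : Type} [Fintype κ] (D : κ → F → F) (hD : ∀ i, IsDer (D i))

/-- The combination of the derivations with coefficients `ξ`. -/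
def cmb (ξ : κ → F) (z : F) : F := ∑ i, ξ i * D i z

include hD

lemma cmb_isDer (ξ : κ → F) : IsDer (cmb D ξ) := by
  refine ⟨fun a b => ?_, fun a b => ?_⟩
  · simp only [cmb, (hD _).add, mul_add, Finset.sum_add_distrib]
  · simp only [cmb, (hD _).mul, mul_add, Finset.sum_add_distrib, Finset.sum_mul, Finset.mul_sum]
    congr 1
    · exact Finset.sum_congr rfl fun i _ => by ring
    · exact Finset.sum_congr rfl fun i _ => by ring

end

section

variable {k F : Type} [Field k] [Field F] (φ : k →+* F) {n s K L Q : ℕ}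

/-- **From a run at a generic point to an identity.** -/
theorem coreF (X Y : Matrix (Fin n) (Fin n) F) (D : Ent n → F → F) (hD : ∀ i, IsDer (D i))
    (hc : ∀ i c, D i (φ c) = 0)
    (hDX : ∀ i x y, D i (X x y) = if i = Sum.inl (x, y) then 1 else 0)
    (hDY : ∀ i x y, D i (Y x y) = if i = Sum.inr (x, y) then 1 else 0)
    (hX : IsUnit X.det) (t : ETree k n s) (o : Fin s → F) (g0 : ℕ → F)
    (hrun : (t.tmap φ).Can X Y (fun o' => o' = o) 0 g0 L Q)
    (Ky : Fin K → Fin s → F) (J : Fin K → Matrix (Fin n) (Fin n) F)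
    (J' : Fin K → Fin n → Fin n → F)
    (hJ : ∀ u v, ∑ x, ∑ y, J u x y * J' v x y = if u = v then 1 else 0)
    (h1 : ∀ i u, ∑ a, Ky u a * D i (o a) + ∑ x, ∑ y, J u x y * D i ((X * Y) x y) = 0)
    (h2 : ∀ ξ : Ent n → F, (∀ a, cmb D ξ (o a) = 0) → (∀ x y, cmb D ξ ((X * Y) x y) = 0) →
      (∀ u a, cmb D ξ (Ky u a) = 0) ∧ ∀ u x y, cmb D ξ (J u x y) = 0) :
    ∃ (l : ℕ) (T : Finset ℕ), T ⊆ Finset.range l ∧ T.card ≤ Q ∧ l ≤ L + T.card ∧
      ∀ h, h + s ≤ n ^ 2 + K → SysE F n K h l T := by
  classical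
  obtain ⟨l, G, T, M, -, -, hT, hTc, hl, hstep, hout⟩ := path φ t 0 g0 L Q hrun
  refine ⟨l, T, by rw [Finset.range_eq_Ico]; exact hT, hTc, by omega, fun h hh => ?_⟩
  have hcst : ∀ i j x y, D j (D i (X x y)) = 0 := by
    intro i j x y
    rw [hDX]
    split_ifs
    · exact (hD j).one
    · exact (hD j).zero
  have hcst' : ∀ i j x y, D j (D i (Y x y)) = 0 := by
    intro i j x y
    rw [hDY]
    split_ifs
    · exact (hD j).one
    · exact (hD j).zero
  have hX2 : ∀ x y, Hs D (X x y) = 0 := fun x y => by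
    funext i j; exact hcst j i x y
  have hY2 : ∀ x y, Hs D (Y x y) = 0 := fun x y => by
    funext i j; exact hcst' j i x y
  obtain ⟨p, q, hpq⟩ := hess_repr D hD φ hc hX2 hY2 l G T
    (fun r hr hrT => hstep r (Nat.zero_le _) hr hrT)
  have hcex := fun a => hpq (M a)
  choose c hc' using hcex
  -- the kernel
  let Θ : (Ent n → F) →ₗ[F] (Fin s → F) × Matrix (Fin n) (Fin n) F :=
    { toFun := fun ξ => (fun a => cmb D ξ (o a), Matrix.of fun x y => cmb D ξ ((X * Y) x y))
      map_add' := fun ξ ζ => by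
        refine Prod.ext (funext fun a => ?_) (Matrix.ext fun x y => ?_)
        · simp only [cmb, Pi.add_apply, add_mul, Finset.sum_add_distrib, Prod.fst_add]
        · simp only [cmb, Pi.add_apply, add_mul, Finset.sum_add_distrib, Prod.snd_add,
            Matrix.add_apply, Matrix.of_apply]
      map_smul' := fun r ξ => by
        refine Prod.ext (funext fun a => ?_) (Matrix.ext fun x y => ?_)
        · simp only [cmb, Pi.smul_apply, smul_eq_mul, Prod.smul_fst, RingHom.id_apply,
            Finset.mul_sum, mul_assoc]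
        · simp only [cmb, Pi.smul_apply, smul_eq_mul, Prod.smul_snd, RingHom.id_apply,
            Matrix.smul_apply, Matrix.of_apply, Finset.mul_sum, mul_assoc] }
  have hΘ1 : ∀ ξ a, (Θ ξ).1 a = cmb D ξ (o a) := fun _ _ => rfl
  have hΘ2 : ∀ ξ x y, (Θ ξ).2 x y = cmb D ξ ((X * Y) x y) := fun _ _ _ => rfl
  let Λ : (Fin s → F) × Matrix (Fin n) (Fin n) F →ₗ[F] (Fin K → F) :=
    { toFun := fun w u => ∑ a, Ky u a * w.1 a + ∑ x, ∑ y, J u x y * w.2 x y
      map_add' := fun w w' => by
        funext u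
        simp only [Prod.fst_add, Prod.snd_add, Pi.add_apply, Matrix.add_apply, mul_add,
          Finset.sum_add_distrib]
        ring
      map_smul' := fun r w => by
        funext u
        simp only [Prod.smul_fst, Prod.smul_snd, Pi.smul_apply, Matrix.smul_apply, smul_eq_mul,
          RingHom.id_apply, mul_add, Finset.mul_sum]
        congr 1
        · exact Finset.sum_congr rfl fun a _ => by ring
        · exact Finset.sum_congr rfl fun x _ => Finset.sum_congr rfl fun y _ => by ring }
  have hΛ : ∀ w u, Λ w u = ∑ a, Ky u a * w.1 a + ∑ x, ∑ y, J u x y * w.2 x y := fun _ _ => rfl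
  have hΛs : Function.Surjective Λ := by
    intro v
    refine ⟨(0, Matrix.of fun x y => ∑ w, v w * J' w x y), ?_⟩
    funext u
    rw [hΛ]
    simp only [Pi.zero_apply, mul_zero, Finset.sum_const_zero, zero_add, Matrix.of_apply]
    have e1 : ∑ x, ∑ y, J u x y * ∑ w, v w * J' w x y =
        ∑ w, v w * ∑ x, ∑ y, J u x y * J' w x y := by
      simp only [Finset.mul_sum]
      rw [Finset.sum_congr rfl fun x _ => Finset.sum_comm, Finset.sum_comm]
      refine Finset.sum_congr rfl fun w _ => Finset.sum_congr rfl fun x _ =>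
        Finset.sum_congr rfl fun y _ => ?_
      ring
    rw [e1]
    simp only [hJ, mul_ite, mul_one, mul_zero, Finset.sum_ite_eq, Finset.mem_univ, if_true]
  have hΛΘ : ∀ ξ, Λ (Θ ξ) = 0 := by
    intro ξ
    funext u
    rw [hΛ]
    simp only [hΘ1, hΘ2, cmb]
    have e1 : ∑ a, Ky u a * ∑ i, ξ i * D i (o a) = ∑ i, ξ i * ∑ a, Ky u a * D i (o a) := by
      simp only [Finset.mul_sum]
      rw [Finset.sum_comm]
      refine Finset.sum_congr rfl fun i _ => Finset.sum_congr rfl fun a _ => ?_
      ring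
    have e2 : ∑ x, ∑ y, J u x y * ∑ i, ξ i * D i ((X * Y) x y) =
        ∑ i, ξ i * ∑ x, ∑ y, J u x y * D i ((X * Y) x y) := by
      simp only [Finset.mul_sum]
      rw [Finset.sum_congr rfl fun x _ => Finset.sum_comm, Finset.sum_comm]
      refine Finset.sum_congr rfl fun i _ => Finset.sum_congr rfl fun x _ =>
        Finset.sum_congr rfl fun y _ => ?_
      ring
    rw [e1, e2, ← Finset.sum_add_distrib]
    simp only [← mul_add, h1, mul_zero, Finset.sum_const_zero, Pi.zero_apply]
  have hker : h ≤ finrank F (LinearMap.ker Θ) := by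
    have e1 := LinearMap.finrank_range_add_finrank_ker Θ
    have e2 := LinearMap.finrank_range_add_finrank_ker Λ
    have e3 : finrank F (LinearMap.range Λ) = K := by
      rw [LinearMap.range_eq_top.mpr hΛs, finrank_top, finrank_fin_fun]
    have e4 : finrank F (LinearMap.range Θ) ≤ finrank F (LinearMap.ker Λ) := by
      refine Submodule.finrank_mono ?_
      rintro _ ⟨ξ, rfl⟩
      exact hΛΘ ξ
    have e5 : finrank F (Ent n → F) = 2 * n ^ 2 := by
      rw [Module.finrank_fintype_fun_eq_card, Fintype.card_sum, Fintype.card_prod,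
        Fintype.card_fin]
      ring
    have e6 : finrank F ((Fin s → F) × Matrix (Fin n) (Fin n) F) = s + n ^ 2 := by
      rw [Module.finrank_prod, finrank_fin_fun, Module.finrank_matrix, Module.finrank_self,
        Fintype.card_fin]
      ring
    rw [e5] at e1
    rw [e6, e3] at e2
    omega
  -- the kernel is seen on the first matrix
  let π : (Ent n → F) →ₗ[F] Matrix (Fin n) (Fin n) F :=
    { toFun := fun ξ => Matrix.of fun x y => ξ (Sum.inl (x, y))
      map_add' := fun _ _ => rfl
      map_smul' := fun _ _ => rfl }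
  have hcX : ∀ ξ x y, cmb D ξ (X x y) = ξ (Sum.inl (x, y)) := by
    intro ξ x y
    simp only [cmb, hDX, mul_ite, mul_one, mul_zero, Finset.sum_ite_eq', Finset.mem_univ, if_true]
  have hcY : ∀ ξ x y, cmb D ξ (Y x y) = ξ (Sum.inr (x, y)) := by
    intro ξ x y
    simp only [cmb, hDY, mul_ite, mul_one, mul_zero, Finset.sum_ite_eq', Finset.mem_univ, if_true]
  have hinj : Function.Injective (π ∘ₗ (LinearMap.ker Θ).subtype) := by
    rw [← LinearMap.ker_eq_bot, LinearMap.ker_eq_bot']
    intro ξ hξ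
    have hx0 : X.map (cmb D ξ) = 0 := by
      refine Matrix.ext fun x y => ?_
      rw [Matrix.map_apply, hcX]
      exact congrFun (congrFun hξ x) y
    have hp0 : (X * Y).map (cmb D ξ) = 0 := by
      have h0 : Θ ξ = 0 := ξ.2
      refine Matrix.ext fun x y => ?_
      rw [Matrix.map_apply, ← hΘ2, h0]
      rfl
    rw [map_der_mul (cmb_isDer D hD _), hx0, zero_mul, zero_add] at hp0
    have hy0 : Y.map (cmb D ξ) = 0 := by
      have := congrArg (fun Z => X⁻¹ * Z) hp0
      simp only [Matrix.mul_zero] at this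
      rwa [← Matrix.mul_assoc, Matrix.nonsing_inv_mul X hX, Matrix.one_mul] at this
    refine Subtype.ext (funext fun i => ?_)
    rcases i with ⟨x, y⟩ | ⟨x, y⟩
    · exact (hcX _ x y).symm.trans (congrFun (congrFun hx0 x) y)
    · exact (hcY _ x y).symm.trans (congrFun (congrFun hy0 x) y)
  obtain ⟨ι, ρ, hρ⟩ := exists_retract (K := F) (A := Fin h → F) (B := LinearMap.ker Θ)
    (by rw [finrank_fin_fun]; exact hker)
  have hιinj : Function.Injective ι := fun a b hab => by
    have e1 := LinearMap.congr_fun hρ a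
    have e2 := LinearMap.congr_fun hρ b
    simp only [LinearMap.comp_apply, LinearMap.id_apply] at e1 e2
    rw [← e1, ← e2, hab]
  let ψ : (Fin h → F) →ₗ[F] Matrix (Fin n) (Fin n) F := (π ∘ₗ (LinearMap.ker Θ).subtype) ∘ₗ ι
  have hψinj : LinearMap.ker ψ = ⊥ := LinearMap.ker_eq_bot.mpr (hinj.comp hιinj)
  obtain ⟨N, hN⟩ := LinearMap.exists_leftInverse_of_injective ψ hψinj
  set ξ : Fin h → Ent n → F := fun j => ι (Pi.single j 1) with hξ
  have hξΘ : ∀ j, Θ (ξ j) = 0 := fun j => (ι (Pi.single j 1)).2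
  have hψ : ∀ j x y, ψ (Pi.single j 1) x y = ξ j (Sum.inl (x, y)) := fun _ _ _ => rfl
  have hko : ∀ j a, cmb D (ξ j) (o a) = 0 := fun j a => by rw [← hΘ1, hξΘ]; rfl
  have hkc : ∀ j x y, cmb D (ξ j) ((X * Y) x y) = 0 := fun j x y => by rw [← hΘ2, hξΘ]; rfl
  refine ⟨fun j => ψ (Pi.single j 1), fun i x y => N (Matrix.single x y 1) i, J, J',
    fun t j => ∑ i, ξ j i * p t i, fun t j => ∑ i, ξ j i * q t i,
    fun t x y => p t (Sum.inr (x, y)), fun t x y => q t (Sum.inr (x, y)),
    fun t j x y => ∑ i, ξ j i * Hs D (G t) i (Sum.inr (x, y)),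
    fun t u => - ∑ a, Ky u a * c a t, ?_, hJ, ?_⟩
  · intro i j
    have e1 : ∑ x, ∑ y, N (Matrix.single x y 1) i * ψ (Pi.single j 1) x y =
        N (ψ (Pi.single j 1)) i := by
      conv_rhs => rw [Matrix.matrix_eq_sum_single (ψ (Pi.single j 1))]
      simp only [map_sum, Finset.sum_apply]
      refine Finset.sum_congr rfl fun x _ => Finset.sum_congr rfl fun y _ => ?_
      have : Matrix.single x y (ψ (Pi.single j 1) x y) =
          ψ (Pi.single j 1) x y • Matrix.single x y (1 : F) := by
        rw [Matrix.smul_single, smul_eq_mul, mul_one]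
      rw [this, map_smul, Pi.smul_apply, smul_eq_mul, mul_comm]
    rw [e1]
    have e2 := LinearMap.congr_fun hN (Pi.single j 1)
    simp only [LinearMap.comp_apply, LinearMap.id_apply] at e2
    rw [e2, Pi.single_apply]
  · intro j x y u
    have hδ := cmb_isDer D hD (ξ j)
    obtain ⟨hk1, hk2⟩ := h2 (ξ j) (hko j) (hkc j)
    -- the first order identity
    have e1 : ∀ r c', D (Sum.inr (x, y)) ((X * Y) r c') = if c' = y then X r x else 0 := by
      intro r c'
      rw [Matrix.mul_apply, (hD _).sum]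
      simp only [(hD _).mul, hDX, hDY, reduceCtorEq, if_false, zero_mul, zero_add, Sum.inr.injEq,
        Prod.mk.injEq, mul_ite, mul_one, mul_zero]
      by_cases hcy : c' = y
      · subst hcy
        simp
      · have : ∀ m, ¬ (x = m ∧ y = c') := fun m hm => hcy hm.2.symm
        simp [this, hcy]
    have e2 := h1 (Sum.inr (x, y)) u
    simp only [e1, mul_ite, mul_zero, Finset.sum_ite_eq', Finset.mem_univ, if_true] at e2
    have e3 := congrArg (cmb D (ξ j)) e2
    rw [hδ.zero, hδ.add, hδ.sum, hδ.sum] at e3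
    simp only [hδ.mul, hk1, hk2, zero_mul, zero_add, hcX] at e3
    have e4 : ∑ r, J u r y * ψ (Pi.single j 1) r x =
        - ∑ a, Ky u a * cmb D (ξ j) (D (Sum.inr (x, y)) (o a)) := by
      simp only [hψ]
      rw [eq_neg_iff_add_eq_zero, add_comm]
      exact e3
    rw [e4]
    have e5 : ∀ a, cmb D (ξ j) (D (Sum.inr (x, y)) (o a)) = ∑ t ∈ Finset.range l,
        (if t ∈ T then ∑ i, ξ j i * Hs D (G t) i (Sum.inr (x, y)) else
          (∑ i, ξ j i * p t i) * q t (Sum.inr (x, y)) +
          p t (Sum.inr (x, y)) * ∑ i, ξ j i * q t i) * c a t := by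
      intro a
      have e6 : ∀ i, D i (D (Sum.inr (x, y)) (o a)) = ∑ t ∈ Finset.range l,
          c a t * (if t ∈ T then Hs D (G t) i (Sum.inr (x, y)) else
            p t i * q t (Sum.inr (x, y)) + p t (Sum.inr (x, y)) * q t i) := by
        intro i
        have := congrFun (congrFun (hc' a) i) (Sum.inr (x, y))
        rw [hout] at this
        have e7 : Hs D (o a) i (Sum.inr (x, y)) = D i (D (Sum.inr (x, y)) (o a)) := rfl
        rw [← e7, this, Finset.sum_apply, Finset.sum_apply]
        refine Finset.sum_congr rfl fun t _ => ?_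
        by_cases ht : t ∈ T
        · simp only [ht, if_true, Pi.smul_apply, smul_eq_mul]
        · simp only [ht, if_false, Pi.smul_apply, smul_eq_mul, Sym]
      simp only [cmb, e6, Finset.mul_sum]
      rw [Finset.sum_comm]
      refine Finset.sum_congr rfl fun t _ => ?_
      by_cases ht : t ∈ T
      · simp only [ht, if_true, Finset.sum_mul]
        exact Finset.sum_congr rfl fun i _ => by ring
      · simp only [ht, if_false, Finset.sum_mul, add_mul]
        rw [← Finset.sum_add_distrib]
        exact Finset.sum_congr rfl fun i _ => by ring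
    simp only [e5, Finset.mul_sum]
    rw [Finset.sum_comm, ← Finset.sum_neg_distrib]
    refine Finset.sum_congr rfl fun t _ => ?_
    rw [mul_neg, Finset.mul_sum]
    congr 1
    exact Finset.sum_congr rfl fun a _ => by ring

end

end Pool.Agent.W944.En
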