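import Pool.Agent.W944.En.Tree

/-!
# Constants in countable subfields
-/

set_option linter.unusedSectionVars false

namespace Pool.Agent.W944.En

open Pool.Agent.W966.Mm MvPolynomial

lemma lin_desc {n : ℕ} (f : Lin ℂ n) : ∃ S : Set ℂ, S.Countable ∧
    ∀ k : Subfield ℂ, S ⊆ k → ∃ f0 : Lin k n, lmap k.subtype f0 = f := by
  refine ⟨{f.c} ∪ (Set.range fun p : Fin n × Fin n => f.a p.1 p.2) ∪
    (Set.range fun p : Fin n × Fin n => f.b p.1 p.2) ∪ Set.range f.r, ?_, ?_⟩
  · exact (((Set.countable_singleton _).union (Set.countable_range _)).union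
      (Set.countable_range _)).union (Set.countable_range _)
  · intro k hk
    refine ⟨⟨⟨f.c, hk ?_⟩, fun i j => ⟨f.a i j, hk ?_⟩, fun i j => ⟨f.b i j, hk ?_⟩,
      fun i => ⟨f.r i, hk ?_⟩⟩, rfl⟩
    · exact Or.inl (Or.inl (Or.inl rfl))
    · exact Or.inl (Or.inl (Or.inr ⟨(i, j), rfl⟩))
    · exact Or.inl (Or.inr ⟨(i, j), rfl⟩)
    · exact Or.inr ⟨i, rfl⟩

lemma tree_desc {n s : ℕ} (t : ETree ℂ n s) : ∃ S : Set ℂ, S.Countable ∧
    ∀ k : Subfield ℂ, S ⊆ k → ∃ t0 : ETree k n s, t0.tmap k.subtype = t := by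
  induction t with
  | output M =>
    choose S hS1 hS2 using fun a => lin_desc (M a)
    refine ⟨⋃ a, S a, Set.countable_iUnion hS1, fun k hk => ?_⟩
    choose M0 hM0 using fun a => hS2 a k ((Set.subset_iUnion S a).trans hk)
    exact ⟨.output M0, by simp only [ETree.tmap, hM0]⟩
  | mul f h next ih =>
    obtain ⟨S1, h1, h1'⟩ := lin_desc f
    obtain ⟨S2, h2, h2'⟩ := lin_desc h
    obtain ⟨S3, h3, h3'⟩ := ih
    refine ⟨S1 ∪ S2 ∪ S3, (h1.union h2).union h3, fun k hk => ?_⟩
    obtain ⟨f0, hf0⟩ := h1' k fun x hx => hk (Or.inl (Or.inl hx))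
    obtain ⟨h0, hh0⟩ := h2' k fun x hx => hk (Or.inl (Or.inr hx))
    obtain ⟨t0, ht0⟩ := h3' k fun x hx => hk (Or.inr hx)
    exact ⟨.mul f0 h0 t0, by simp only [ETree.tmap, hf0, hh0, ht0]⟩
  | div f h next ih =>
    obtain ⟨S1, h1, h1'⟩ := lin_desc f
    obtain ⟨S2, h2, h2'⟩ := lin_desc h
    obtain ⟨S3, h3, h3'⟩ := ih
    refine ⟨S1 ∪ S2 ∪ S3, (h1.union h2).union h3, fun k hk => ?_⟩
    obtain ⟨f0, hf0⟩ := h1' k fun x hx => hk (Or.inl (Or.inl hx))
    obtain ⟨h0, hh0⟩ := h2' k fun x hx => hk (Or.inl (Or.inr hx))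
    obtain ⟨t0, ht0⟩ := h3' k fun x hx => hk (Or.inr hx)
    exact ⟨.div f0 h0 t0, by simp only [ETree.tmap, hf0, hh0, ht0]⟩
  | query next ih =>
    obtain ⟨S3, h3, h3'⟩ := ih
    refine ⟨S3, h3, fun k hk => ?_⟩
    obtain ⟨t0, ht0⟩ := h3' k hk
    exact ⟨.query t0, by simp only [ETree.tmap, ht0]⟩
  | test f yes no ihy ihn =>
    obtain ⟨S1, h1, h1'⟩ := lin_desc f
    obtain ⟨S2, h2, h2'⟩ := ihy
    obtain ⟨S3, h3, h3'⟩ := ihn
    refine ⟨S1 ∪ S2 ∪ S3, (h1.union h2).union h3, fun k hk => ?_⟩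
    obtain ⟨f0, hf0⟩ := h1' k fun x hx => hk (Or.inl (Or.inl hx))
    obtain ⟨h0, hh0⟩ := h2' k fun x hx => hk (Or.inl (Or.inr hx))
    obtain ⟨t0, ht0⟩ := h3' k fun x hx => hk (Or.inr hx)
    exact ⟨.test f0 h0 t0, by simp only [ETree.tmap, hf0, hh0, ht0]⟩
  | choose r next ih =>
    choose S hS1 hS2 using ih
    refine ⟨⋃ a, S a, Set.countable_iUnion hS1, fun k hk => ?_⟩
    choose t0 ht0 using fun a => hS2 a k ((Set.subset_iUnion S a).trans hk)
    exact ⟨.choose r t0, by simp only [ETree.tmap, ht0]⟩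

lemma poly_desc {κ : Type} (p : MvPolynomial κ ℂ) : ∃ S : Set ℂ, S.Countable ∧
    ∀ k : Subfield ℂ, S ⊆ k → ∃ p0 : MvPolynomial κ k, MvPolynomial.map k.subtype p0 = p := by
  induction p using MvPolynomial.induction_on with
  | C c =>
    refine ⟨{c}, Set.countable_singleton _, fun k hk => ⟨C ⟨c, hk rfl⟩, ?_⟩⟩
    rw [MvPolynomial.map_C]
    rfl
  | add p q hp hq =>
    obtain ⟨S1, h1, h1'⟩ := hp
    obtain ⟨S2, h2, h2'⟩ := hq
    refine ⟨S1 ∪ S2, h1.union h2, fun k hk => ?_⟩
    obtain ⟨p0, hp0⟩ := h1' k fun x hx => hk (Or.inl hx)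
    obtain ⟨q0, hq0⟩ := h2' k fun x hx => hk (Or.inr hx)
    exact ⟨p0 + q0, by rw [map_add, hp0, hq0]⟩
  | mul_X p i hp =>
    obtain ⟨S1, h1, h1'⟩ := hp
    refine ⟨S1, h1, fun k hk => ?_⟩
    obtain ⟨p0, hp0⟩ := h1' k hk
    exact ⟨p0 * X i, by rw [map_mul, hp0, MvPolynomial.map_X]⟩

/-- The values of `o` and `y`. -/
def pto {s : ℕ} (o : Fin s → ℂ) (y : ℂ) : Option (Fin s) → ℂ := fun j => j.elim y o

/-- Elements algebraic over the field generated by `o` satisfy a relation with nonzero derivative. -/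
theorem alg_rel {k : Type} [Field k] [Algebra k ℂ] {s : ℕ} (o : Fin s → ℂ) (y : ℂ)
    (h : IsAlgebraic (Algebra.adjoin k (Set.range o)) y) :
    ∃ f : MvPolynomial (Option (Fin s)) k, aeval (pto o y) f = 0 ∧
      aeval (pto o y) (pderiv none f) ≠ 0 := by
  classical
  set A := Algebra.adjoin k (Set.range o) with hA
  have hcz : CharZero A := (algebraMap A ℂ).charZero
  -- a polynomial of minimal degree
  have hex : ∃ d : ℕ, ∃ p : Polynomial A, p ≠ 0 ∧ Polynomial.aeval y p = 0 ∧ p.natDegree = d := by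
    obtain ⟨p, hp1, hp2⟩ := h
    exact ⟨_, p, hp1, hp2, rfl⟩
  obtain ⟨p, hp1, hp2, hp3⟩ := Nat.find_spec hex
  have hpos : 0 < p.natDegree := by
    by_contra hcon
    have h0 : p.natDegree = 0 := by omega
    obtain ⟨c, hc⟩ := Polynomial.natDegree_eq_zero.mp h0
    rw [← hc, Polynomial.aeval_C] at hp2
    have hc0 : c = 0 := by
      have : (c : ℂ) = 0 := hp2
      exact_mod_cast this
    exact hp1 (by rw [← hc, hc0, Polynomial.C_0])
  have hder : Polynomial.aeval y (Polynomial.derivative p) ≠ 0 := by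
    intro h0
    have hne : Polynomial.derivative p ≠ 0 := by
      intro hz
      have := Polynomial.derivative_eq_zero.mp hz
      omega
    have hlt : (Polynomial.derivative p).natDegree < Nat.find hex := by
      rw [← hp3]
      exact Polynomial.natDegree_derivative_lt (by omega)
    exact Nat.find_min hex hlt ⟨_, hne, h0, rfl⟩
  have hlift : ∀ i, ∃ c : MvPolynomial (Fin s) k, aeval o c = ((p.coeff i : A) : ℂ) := by
    intro i
    have h1 : ((p.coeff i : A) : ℂ) ∈ Algebra.adjoin k (Set.range o) := (p.coeff i).2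
    rw [Algebra.adjoin_range_eq_range_aeval] at h1
    exact h1
  choose c hc using hlift
  set N := p.natDegree + 1 with hN
  refine ⟨∑ i ∈ Finset.range N, rename some (c i) * X none ^ i, ?_, ?_⟩
  · rw [map_sum]
    have e1 : ∀ i, aeval (pto o y) (rename some (c i) * X none ^ i : MvPolynomial _ k) =
        ((p.coeff i : A) : ℂ) * y ^ i := by
      intro i
      rw [map_mul, map_pow, aeval_X, aeval_rename, ← hc]
      rfl
    simp only [e1]
    rw [Polynomial.aeval_eq_sum_range] at hp2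
    rw [← hp2]
    refine Finset.sum_congr rfl fun i _ => ?_
    rw [Algebra.smul_def]
    rfl
  · rw [map_sum, map_sum]
    have e0 : ∀ q : MvPolynomial (Fin s) k, pderiv none (rename some q) = 0 := by
      intro q
      refine pderiv_eq_zero_of_notMem_vars ?_
      intro hmem
      have := MvPolynomial.vars_rename some q hmem
      simp at this
    have e1 : ∀ i, aeval (pto o y) (pderiv none (rename some (c i) * X none ^ i :
        MvPolynomial (Option (Fin s)) k)) = ((p.coeff i : A) : ℂ) * (i * y ^ (i - 1)) := by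
      intro i
      rw [Derivation.leibniz, e0, smul_zero, add_zero, Derivation.leibniz_pow, pderiv_X_self,
        smul_eq_mul, map_mul, aeval_rename]
      have e2 : aeval (pto o y ∘ some) (c i) = ((p.coeff i : A) : ℂ) := by
        rw [← hc]; rfl
      rw [e2]
      congr 1
      simp [pto]
    simp only [e1]
    have e3 : Polynomial.aeval y (Polynomial.derivative p) =
        ∑ i ∈ Finset.range N, ((p.coeff i : A) : ℂ) * (i * y ^ (i - 1)) := by
      rw [Polynomial.aeval_def, ← Polynomial.eval_map, ← Polynomial.derivative_map,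
        Polynomial.derivative_eval, Polynomial.sum_over_range' _ _ N]
      · refine Finset.sum_congr rfl fun i _ => ?_
        rw [Polynomial.coeff_map, mul_assoc]
        rfl
      · have := Polynomial.natDegree_map_le (f := algebraMap A ℂ) (p := p)
        omega
      · intro n
        rw [zero_mul, zero_mul]
    rw [← e3]
    exact hder

end Pool.Agent.W944.En
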