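import Pool.Agent.W944.En.Hint
import Pool.Agent.W944.En.Auto
import Pool.Agent.W944.En.Desc

/-!
# Encoders with arbitrary decoders
-/

set_option linter.unusedSectionVars false

namespace Pool.Agent.W944.En

open Pool.Agent.W966.Mm Pool.Agent.H515R2.MMR Pool.Agent.H53R3 Module Filter MvPolynomial

/-- The values of the polynomials `g u` at the entries of the matrix `C`. -/
noncomputable def vals {k : Type} [Field k] {n K : ℕ} (g : Fin K → MvPolynomial (Fin n × Fin n) k)
    (C : Matrix (Fin n) (Fin n) k) : Fin K → k := fun u => eval (fun p => C p.1 p.2) (g u)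

section

variable {n s K L q : ℕ}

/-- The entries of the product as polynomials. -/
noncomputable def cpol (k : Type) [Field k] (n : ℕ) (p : Fin n × Fin n) :
    MvPolynomial (Ent n) k :=
  ∑ r, X (Sum.inl (p.1, r)) * X (Sum.inr (r, p.2))

/-- Products of generic matrices satisfy no relation. -/
lemma cpol_injective (k : Type) [Field k] (n : ℕ) :
    Function.Injective (aeval (cpol k n) : MvPolynomial (Fin n × Fin n) k →ₐ[k] _) := by
  classical
  let ev : MvPolynomial (Ent n) k →ₐ[k] MvPolynomial (Fin n × Fin n) k :=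
    aeval (Sum.elim X fun p => if p.1 = p.2 then 1 else 0)
  have h : ev.comp (aeval (cpol k n)) = AlgHom.id k _ := by
    refine MvPolynomial.algHom_ext fun p => ?_
    simp only [AlgHom.comp_apply, aeval_X, cpol, map_sum, map_mul, ev, Sum.elim_inl, Sum.elim_inr,
      mul_ite, mul_one, mul_zero, Finset.sum_ite_eq', Finset.mem_univ, if_true, AlgHom.id_apply]
  intro a b hab
  have h1 := AlgHom.congr_fun h a
  have h2 := AlgHom.congr_fun h b
  simp only [AlgHom.comp_apply, AlgHom.id_apply] at h1 h2
  rw [← h1, ← h2, hab]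

/-- **Encoders with arbitrary decoders: the identity.** -/
theorem determine_sys (t : ETree ℂ n s) (g : Fin K → MvPolynomial (Fin n × Fin n) ℂ)
    (hg : AlgebraicIndependent ℂ g) (P : MvPolynomial (Ent n) ℂ) (hP : P ≠ 0)
    (dec : (Fin s → ℂ) → Set (Fin K → ℂ)) (hdec : ∀ o, (dec o).Countable)
    (H : ∀ A B : Matrix (Fin n) (Fin n) ℂ, eval (entries A B) P ≠ 0 →
      t.Can A B (fun _ => True) 0 0 L 0 ∧
      ∀ o, t.Can A B (fun o' => o' = o) 0 0 L 0 → vals g (A * B) ∈ dec o) :
    K ≤ n ^ 2 ∧ ∃ l ≤ L, ∀ h, h + s ≤ n ^ 2 + K → SysE ℂ n K h l ∅ := by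
  classical
  -- a countable field of definition
  obtain ⟨S1, hS1, hS1'⟩ := tree_desc t
  obtain ⟨S2, hS2, hS2'⟩ := poly_desc P
  choose S3 hS3 hS3' using fun u => poly_desc (g u)
  set k : Subfield ℂ := Subfield.closure (S1 ∪ S2 ∪ ⋃ u, S3 u) with hk
  have hkc : Countable k := by
    rw [← Cardinal.mk_le_aleph0_iff]
    refine (Subfield.cardinalMk_closure_le_max _).trans (max_le ?_ le_rfl)
    rw [Cardinal.mk_le_aleph0_iff]
    exact ((hS1.union hS2).union (Set.countable_iUnion hS3)).to_subtype
  have hsub : S1 ∪ S2 ∪ ⋃ u, S3 u ⊆ (k : Set ℂ) := Subfield.subset_closure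
  obtain ⟨t0, ht0⟩ := hS1' k fun x hx => hsub (Or.inl (Or.inl hx))
  obtain ⟨P0, hP0⟩ := hS2' k fun x hx => hsub (Or.inl (Or.inr hx))
  choose g0 hg0 using fun u => hS3' u k fun x hx => hsub (Or.inr (Set.mem_iUnion.mpr ⟨u, hx⟩))
  have hsubt : (k.subtype : k →+* ℂ) = algebraMap k ℂ := rfl
  -- a generic point
  obtain ⟨z, hz⟩ := exists_indep k (Ent n)
  set A : Matrix (Fin n) (Fin n) ℂ := Matrix.of fun i j => z (Sum.inl (i, j)) with hA
  set B : Matrix (Fin n) (Fin n) ℂ := Matrix.of fun i j => z (Sum.inr (i, j)) with hB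
  have hAB : entries A B = z := by
    funext p
    rcases p with p | p <;> rfl
  have hevk : ∀ {κ : Type} (w : κ → ℂ) (G : MvPolynomial κ k),
      eval w (MvPolynomial.map k.subtype G) = aeval w G := by
    intro κ w G
    rw [eval_map]
    rfl
  have hPz : eval (entries A B) P ≠ 0 := by
    rw [hAB, ← hP0, hevk]
    intro h0
    have : P0 = 0 := hz (h0.trans (map_zero _).symm)
    exact hP (by rw [← hP0, this, map_zero])
  obtain ⟨hcan, -⟩ := H A B hPz
  obtain ⟨o, -, ho⟩ := can_exists t 0 0 L 0 hcan
  set C := A * B with hC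
  set cv : Fin n × Fin n → ℂ := fun p => C p.1 p.2 with hcv
  set y : Fin K → ℂ := fun u => aeval cv (g0 u) with hy
  have hyv : ∀ u, vals g C u = y u := by
    intro u
    show eval cv (g u) = aeval cv (g0 u)
    rw [← hg0, hevk]
  -- conjugates
  set R := Algebra.adjoin k (Set.range o) with hR
  have hRc : Countable R := by
    have h1 : Function.Surjective (fun p : MvPolynomial (Fin s) k =>
        (⟨aeval o p, by
          rw [hR, Algebra.adjoin_range_eq_range_aeval]; exact ⟨p, rfl⟩⟩ : R)) := by
      rintro ⟨x, hx⟩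
      have hx' := hx
      rw [hR, Algebra.adjoin_range_eq_range_aeval] at hx'
      obtain ⟨p, hp⟩ := hx'
      exact ⟨p, Subtype.ext hp⟩
    have h2 : Countable (MvPolynomial (Fin s) k) := by
      rw [← Cardinal.mk_le_aleph0_iff]
      exact MvPolynomial.cardinalMk_le_max.trans (max_le (max_le
        (Cardinal.mk_le_aleph0_iff.mpr inferInstance)
        (Cardinal.mk_le_aleph0_iff.mpr inferInstance)) le_rfl)
    exact h1.countable
  have halg : ∀ u, IsAlgebraic R (y u) := by
    intro u
    refine algebraic_of_countable (y u) ((fun v : Fin K → ℂ => v u) '' dec o)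
      ((hdec o).image _) fun τ hτ => ?_
    have hτk : ∀ c : k, τ (c : ℂ) = c := fun c => hτ (algebraMap k R c)
    have hτo : (fun a => τ (o a)) = o := by
      funext a
      exact hτ ⟨o a, Algebra.subset_adjoin ⟨a, rfl⟩⟩
    have hrun := can_map τ t 0 0 L 0 ho
    have e1 : t.tmap τ = t := by
      have e2 : ∀ t1 : ETree k n s, (t1.tmap k.subtype).tmap τ = t1.tmap k.subtype := by
        have e3 : ∀ f : Lin k n, lmap τ (lmap k.subtype f) = lmap k.subtype f := by
          intro f
          simp only [lmap]
          congr 1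
          · exact hτk _
          · funext i j; exact hτk _
          · funext i j; exact hτk _
          · funext i; exact hτk _
        intro t1
        induction t1 with
        | output M => simp only [ETree.tmap, e3]
        | mul f h next ih => simp only [ETree.tmap, e3, ih]
        | div f h next ih => simp only [ETree.tmap, e3, ih]
        | query next ih => simp only [ETree.tmap, ih]
        | test f yes no ihy ihn => simp only [ETree.tmap, e3, ihy, ihn]
        | choose r next ih => simp only [ETree.tmap, ih]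
      rw [← ht0, e2]
    rw [e1, hτo] at hrun
    have hrun' : t.Can (A.map τ) (B.map τ) (fun o' => o' = o) 0 0 L 0 := by
      have e4 : (fun s : ℕ => τ ((0 : ℕ → ℂ) s)) = 0 := by
        funext s; exact map_zero τ
      rw [e4] at hrun
      exact hrun
    have hτev : ∀ {κ : Type} (w : κ → ℂ) (G : MvPolynomial κ k),
        τ (aeval w G) = aeval (fun i => τ (w i)) G := by
      intro κ w G
      have e5 : (τ.comp (aeval w : MvPolynomial κ k →ₐ[k] ℂ).toRingHom) =
          (aeval (fun i => τ (w i)) : MvPolynomial κ k →ₐ[k] ℂ).toRingHom := by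
        refine MvPolynomial.ringHom_ext (fun c => ?_) (fun i => ?_)
        · simp only [RingHom.comp_apply, AlgHom.toRingHom_eq_coe, AlgHom.coe_toRingHom,
            MvPolynomial.algHom_C]
          exact hτk c
        · simp
      exact RingHom.congr_fun e5 G
    have hP' : eval (entries (A.map τ) (B.map τ)) P ≠ 0 := by
      have e6 : entries (A.map τ) (B.map τ) = fun i => τ (z i) := by
        funext p
        rcases p with p | p <;> rfl
      rw [e6, ← hP0, hevk, ← hτev]
      rw [hAB, ← hP0, hevk] at hPz
      exact (map_ne_zero τ).mpr hPz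
    have hmem := (H _ _ hP').2 o hrun'
    refine ⟨_, hmem, ?_⟩
    show eval (fun p => (A.map τ * B.map τ) p.1 p.2) (g u) = τ (y u)
    rw [← Matrix.map_mul, ← hg0, hevk, hy]
    simp only
    rw [hτev]
    rfl
  choose f hf1 hf2 using fun u => alg_rel o (y u) (halg u)
  -- derivations
  have hDex := exists_der hz
  choose D hD hDc hDz using hDex
  have hyind : AlgebraicIndependent k y := by
    rw [algebraicIndependent_iff]
    intro G hG
    have e1 : aeval y G = aeval z (aeval (cpol k n) (aeval g0 G)) := by
      have e2 : (aeval y : MvPolynomial (Fin K) k →ₐ[k] ℂ) =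
          ((aeval z).comp (aeval (cpol k n))).comp (aeval g0) := by
        refine MvPolynomial.algHom_ext fun u => ?_
        simp only [AlgHom.comp_apply, aeval_X, hy]
        have e3 : (aeval cv : MvPolynomial (Fin n × Fin n) k →ₐ[k] ℂ) =
            (aeval z).comp (aeval (cpol k n)) := by
          refine MvPolynomial.algHom_ext fun p => ?_
          simp only [AlgHom.comp_apply, aeval_X, cpol, map_sum, map_mul, hcv, hC,
            Matrix.mul_apply, hA, hB, Matrix.of_apply]
        rw [e3]
        rfl
      rw [e2]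
      rfl
    rw [e1] at hG
    have h1 : aeval (cpol k n) (aeval g0 G) = 0 := hz (hG.trans (map_zero _).symm)
    have h2 : aeval g0 G = 0 := cpol_injective k n (h1.trans (map_zero _).symm)
    have h3 : aeval g (MvPolynomial.map k.subtype G) = MvPolynomial.map k.subtype (aeval g0 G) := by
      have e4 : ((aeval g : MvPolynomial (Fin K) ℂ →ₐ[ℂ] _).toRingHom.comp
          (MvPolynomial.map k.subtype)) = (MvPolynomial.map k.subtype).comp
          (aeval g0 : MvPolynomial (Fin K) k →ₐ[k] _).toRingHom := by
        refine MvPolynomial.ringHom_ext (fun c => ?_) (fun i => ?_)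
        · simp
        · simp [hg0]
      exact RingHom.congr_fun e4 G
    rw [h2, map_zero] at h3
    have h4 : MvPolynomial.map k.subtype G = 0 := hg (h3.trans (map_zero _).symm)
    exact MvPolynomial.map_injective k.subtype k.subtype.injective (h4.trans (map_zero _).symm)
  have hD'ex := exists_der hyind
  choose D' hD' hD'c hD'z using hD'ex
  have hoption : ∀ f : Option (Fin s) → ℂ, ∑ j, f j = f none + ∑ a, f (some a) :=
    fun f => Fintype.sum_option f
  -- derivatives of the values
  have hyD : ∀ (δ : ℂ → ℂ), IsDer δ → (∀ c : k, δ (algebraMap k ℂ c) = 0) → ∀ u,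
      δ (y u) = ∑ a, ∑ b, aeval cv (pderiv (a, b) (g0 u)) * δ (C a b) := by
    intro δ hδ hδc u
    have := chain (fun _ : Unit => δ) (fun _ => hδ) (algebraMap k ℂ) (fun _ c => hδc c)
      (fun _ c => hδc c) cv (g0 u) ()
    rw [Fintype.sum_prod_type] at this
    exact this
  have hfD : ∀ (δ : ℂ → ℂ), IsDer δ → (∀ c : k, δ (algebraMap k ℂ c) = 0) →
      ∀ u (G : MvPolynomial (Option (Fin s)) k), δ (aeval (pto o (y u)) G) =
        aeval (pto o (y u)) (pderiv none G) * δ (y u) +
        ∑ a, aeval (pto o (y u)) (pderiv (some a) G) * δ (o a) := by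
    intro δ hδ hδc u G
    have := chain (fun _ : Unit => δ) (fun _ => hδ) (algebraMap k ℂ) (fun _ c => hδc c)
      (fun _ c => hδc c) (pto o (y u)) G ()
    rw [hoption] at this
    exact this
  set dn : Fin K → ℂ := fun u => aeval (pto o (y u)) (pderiv none (f u)) with hdn
  set J : Fin K → Matrix (Fin n) (Fin n) ℂ := fun u => Matrix.of fun a b =>
    dn u * aeval cv (pderiv (a, b) (g0 u)) with hJd
  have hJ : ∀ u v : Fin K, ∑ a, ∑ b, J u a b * (D' v (C a b) * (dn v)⁻¹) =
      if u = v then 1 else 0 := by
    intro u v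
    have e1 := hyD (D' v) (hD' v) (hD'c v) u
    rw [hD'z] at e1
    have e2 : ∑ a, ∑ b, J u a b * (D' v (C a b) * (dn v)⁻¹) =
        dn u * (∑ a, ∑ b, aeval cv (pderiv (a, b) (g0 u)) * D' v (C a b)) * (dn v)⁻¹ := by
      simp only [Finset.mul_sum, Finset.sum_mul, hJd, Matrix.of_apply]
      exact Finset.sum_congr rfl fun a _ => Finset.sum_congr rfl fun b _ => by ring
    rw [e2, ← e1]
    by_cases huv : u = v
    · subst huv
      simp only [if_true, mul_one]
      exact mul_inv_cancel₀ (hf2 u)
    · simp only [huv, if_false, mul_zero, zero_mul]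
  have hdet : IsUnit A.det := by
    rw [isUnit_iff_ne_zero]
    have e1 : A.det = aeval z (Matrix.of fun i j : Fin n => (X (Sum.inl (i, j)) :
          MvPolynomial (Ent n) k)).det := by
      rw [← AlgHom.coe_toRingHom, RingHom.map_det, RingHom.mapMatrix_apply]
      congr 1
      refine Matrix.ext fun i j => ?_
      simp only [Matrix.map_apply, Matrix.of_apply, AlgHom.coe_toRingHom, aeval_X, hA]
    rw [e1]
    intro h0
    have h1 := hz (h0.trans (map_zero _).symm)
    have h2 := congrArg (eval (entries (1 : Matrix (Fin n) (Fin n) k) 0)) h1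
    rw [RingHom.map_det, RingHom.mapMatrix_apply, map_zero] at h2
    have h3 : (Matrix.of fun i j : Fin n => (X (Sum.inl (i, j)) :
          MvPolynomial (Ent n) k)).map (eval (entries (1 : Matrix (Fin n) (Fin n) k) 0)) = 1 := by
      refine Matrix.ext fun i j => ?_
      simp [entries]
    rw [h3, Matrix.det_one] at h2
    exact one_ne_zero h2
  have hrun0 : (t0.tmap k.subtype).Can A B (fun o' => o' = o) 0 0 L 0 := by
    rw [ht0]; exact ho
  obtain ⟨l, T, hT, hTc, hl, hsys⟩ := coreF k.subtype (K := K) A B D hD (fun i c => hDc i c)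
    (fun i a b => by
      have : A a b = z (Sum.inl (a, b)) := rfl
      rw [this, hDz]
      by_cases h : i = Sum.inl (a, b) <;> simp [h, eq_comm])
    (fun i a b => by
      have : B a b = z (Sum.inr (a, b)) := rfl
      rw [this, hDz]
      by_cases h : i = Sum.inr (a, b) <;> simp [h, eq_comm])
    hdet t0 o _ hrun0
    (fun u a => aeval (pto o (y u)) (pderiv (some a) (f u))) J
    (fun v a b => D' v (C a b) * (dn v)⁻¹) hJ
    (fun i u => by
      have e1 := hfD (D i) (hD i) (hDc i) u (f u)
      rw [hf1, (hD i).zero, hyD (D i) (hD i) (hDc i) u] at e1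
      rw [e1, add_comm, Finset.mul_sum]
      congr 1
      refine Finset.sum_congr rfl fun a _ => ?_
      rw [Finset.mul_sum]
      exact Finset.sum_congr rfl fun b _ => mul_assoc _ _ _)
    (fun ξ hξ1 hξ2 => by
      have hδ := cmb_isDer D hD ξ
      have hδc : ∀ (c : k), cmb D ξ (algebraMap k ℂ c) = 0 := fun c => by
        simp only [cmb, hDc, mul_zero, Finset.sum_const_zero]
      have hy0 : ∀ u, cmb D ξ (y u) = 0 := by
        intro u
        rw [hyD _ hδ hδc u]
        simp only [hC, hξ2, mul_zero, Finset.sum_const_zero]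
      have hG : ∀ u (G : MvPolynomial (Option (Fin s)) k),
          cmb D ξ (aeval (pto o (y u)) G) = 0 := by
        intro u G
        rw [hfD _ hδ hδc u G]
        simp only [hy0, hξ1, mul_zero, Finset.sum_const_zero, add_zero]
      refine ⟨fun u a => hG u _, fun u a b => ?_⟩
      have e1 : cmb D ξ (aeval cv (pderiv (a, b) (g0 u))) = 0 := by
        have := chain (fun _ : Unit => cmb D ξ) (fun _ => hδ) (algebraMap k ℂ)
          (fun _ c => hδc c) (fun _ c => hδc c) cv (pderiv (a, b) (g0 u)) ()
        rw [this]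
        refine Finset.sum_eq_zero fun p _ => ?_
        have e2 : cmb D ξ (cv p) = 0 := hξ2 p.1 p.2
        rw [e2, mul_zero]
      show cmb D ξ (dn u * aeval cv (pderiv (a, b) (g0 u))) = 0
      rw [hδ.mul, e1, mul_zero, add_zero, hdn]
      simp only
      rw [hG, zero_mul])
  have hT0 : T.card = 0 := by omega
  rw [Finset.card_eq_zero] at hT0
  subst hT0
  exact ⟨K_le hJ, l, by simpa using hl, hsys⟩

end

end Pool.Agent.W944.En
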