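import Pool.Agent.W944.En.Tree
import Pool.Agent.H53R3.Der

/-!
# Second derivatives of the results of a run
-/

set_option linter.unusedSectionVars false

namespace Pool.Agent.W944.En

open Pool.Agent.W966.Mm Pool.Agent.H53R3

section

variable {κ F : Type} [Field F]

/-- Second derivatives. -/
def Hs (D : κ → F → F) (z : F) : κ → κ → F := fun i j => D i (D j z)

/-- Symmetric product of two vectors. -/
def Sym (p q : κ → F) : κ → κ → F := fun i j => p i * q j + p j * q i

variable (D : κ → F → F) (hD : ∀ i, IsDer (D i))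

include hD

lemma Hs_add (a b : F) : Hs D (a + b) = Hs D a + Hs D b := by
  funext i j; simp only [Hs, Pi.add_apply, (hD _).add]

lemma Hs_zero : Hs D (0 : F) = 0 := by
  funext i j; simp only [Hs, (hD j).zero, (hD i).zero, Pi.zero_apply]

lemma Hs_sum {ι : Type*} (s : Finset ι) (f : ι → F) :
    Hs D (∑ t ∈ s, f t) = ∑ t ∈ s, Hs D (f t) := by
  classical
  induction s using Finset.induction_on with
  | empty => simpa using Hs_zero D hD
  | insert a s ha ih => rw [Finset.sum_insert ha, Hs_add D hD, ih, Finset.sum_insert ha]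

lemma Hs_mul (a b : F) :
    Hs D (a * b) = b • Hs D a + a • Hs D b + Sym (fun i => D i a) (fun i => D i b) := by
  funext i j
  simp only [Hs, Sym, Pi.add_apply, Pi.smul_apply, smul_eq_mul, (hD _).mul, (hD _).add]
  ring

variable {k : Type} [Field k] {n : ℕ} (φ : k →+* F) (hc : ∀ i (c : k), D i (φ c) = 0)

include hc

lemma Hs_const (c : k) : Hs D (φ c) = 0 := by
  funext i j; simp only [Hs, hc, (hD i).zero, Pi.zero_apply]

lemma Hs_smul (c : k) (z : F) : Hs D (φ c * z) = φ c • Hs D z := by
  funext i j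
  simp only [Hs, Pi.smul_apply, smul_eq_mul, (hD _).mul, hc, zero_mul, zero_add]

lemma Hs_val (f : Lin k n) {X Y : Matrix (Fin n) (Fin n) F} (hX : ∀ a b, Hs D (X a b) = 0)
    (hY : ∀ a b, Hs D (Y a b) = 0) (l : ℕ) (G : ℕ → F) :
    Hs D ((lmap φ f).val X Y l G) = ∑ s ∈ Finset.range l, φ (f.r s) • Hs D (G s) := by
  unfold Lin.val
  simp only [lmap]
  rw [Hs_add D hD, Hs_add D hD, Hs_const D hD φ hc, Hs_sum D hD, Hs_sum D hD]
  simp only [Hs_sum D hD, Hs_add D hD, Hs_smul D hD φ hc, hX, hY, smul_zero, add_zero,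
    Finset.sum_const_zero, zero_add]

/-- **Second derivatives of the results of a run.** -/
theorem hess_repr {X Y : Matrix (Fin n) (Fin n) F} (hX : ∀ a b, Hs D (X a b) = 0)
    (hY : ∀ a b, Hs D (Y a b) = 0) (l : ℕ) (G : ℕ → F) (K : Finset ℕ)
    (hG : ∀ s < l, s ∉ K → ∃ u v : Lin k n,
      G s = (lmap φ u).val X Y s G * (lmap φ v).val X Y s G ∨
      ((lmap φ v).val X Y s G ≠ 0 ∧ G s = (lmap φ u).val X Y s G / (lmap φ v).val X Y s G)) :
    ∃ p q : ℕ → κ → F, ∀ f : Lin k n, ∃ c : ℕ → F, Hs D ((lmap φ f).val X Y l G) =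
      ∑ s ∈ Finset.range l, c s • (if s ∈ K then Hs D (G s) else Sym (p s) (q s)) := by
  have hex : ∀ s, ∃ p q : κ → F, s < l → s ∉ K → ∀ Q : Submodule F (κ → κ → F),
      (∀ f : Lin k n, Hs D ((lmap φ f).val X Y s G) ∈ Q) → Sym p q ∈ Q → Hs D (G s) ∈ Q := by
    intro s
    by_cases hs : s < l ∧ s ∉ K
    · obtain ⟨u, v, h | ⟨hv0, h⟩⟩ := hG s hs.1 hs.2
      · refine ⟨fun i => D i ((lmap φ u).val X Y s G), fun i => D i ((lmap φ v).val X Y s G),
          fun _ _ Q hQ hS => ?_⟩
        rw [h, Hs_mul D hD]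
        exact Q.add_mem (Q.add_mem (Q.smul_mem _ (hQ u)) (Q.smul_mem _ (hQ v))) hS
      · refine ⟨fun i => D i (G s), fun i => D i ((lmap φ v).val X Y s G),
          fun _ _ Q hQ hS => ?_⟩
        have hu' : (lmap φ u).val X Y s G = G s * (lmap φ v).val X Y s G := by
          rw [h, div_mul_cancel₀ _ hv0]
        have h2 := Hs_mul D hD (G s) ((lmap φ v).val X Y s G)
        rw [← hu'] at h2
        have e2 : Hs D (G s) = ((lmap φ v).val X Y s G)⁻¹ • (Hs D ((lmap φ u).val X Y s G) -
            G s • Hs D ((lmap φ v).val X Y s G) -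
            Sym (fun i => D i (G s)) (fun i => D i ((lmap φ v).val X Y s G))) := by
          rw [h2]
          funext i j
          simp only [Pi.smul_apply, Pi.sub_apply, Pi.add_apply, smul_eq_mul]
          field_simp
          ring
        rw [e2]
        exact Q.smul_mem _ (Q.sub_mem (Q.sub_mem (hQ u) (Q.smul_mem _ (hQ v))) hS)
    · exact ⟨0, 0, fun h1 h2 => absurd ⟨h1, h2⟩ hs⟩
  choose p q hpq using hex
  refine ⟨p, q, ?_⟩
  set gen : ℕ → κ → κ → F := fun s => if s ∈ K then Hs D (G s) else Sym (p s) (q s) with hgen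
  set Q : Submodule F (κ → κ → F) := Submodule.span F (Set.range fun r : Fin l => gen r) with hQ
  have hmem : ∀ s < l, gen s ∈ Q := fun s hs => Submodule.subset_span ⟨⟨s, hs⟩, rfl⟩
  have hstep : ∀ s < l, Hs D (G s) ∈ Q := by
    intro s
    induction s using Nat.strong_induction_on with
    | _ s ih =>
      intro hs
      by_cases hK : s ∈ K
      · have := hmem s hs
        simp only [hgen, if_pos hK] at this
        exact this
      · refine hpq s hs hK Q (fun f => ?_) ?_
        · rw [Hs_val D hD φ hc f hX hY]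
          exact Q.sum_mem fun r hr => Q.smul_mem _
            (ih r (Finset.mem_range.mp hr) (by have := Finset.mem_range.mp hr; omega))
        · have := hmem s hs
          simp only [hgen, if_neg hK] at this
          exact this
  intro f
  have hf : Hs D ((lmap φ f).val X Y l G) ∈ Q := by
    rw [Hs_val D hD φ hc f hX hY]
    exact Q.sum_mem fun r hr => Q.smul_mem _ (hstep r (Finset.mem_range.mp hr))
  obtain ⟨c, hc'⟩ := (Submodule.mem_span_range_iff_exists_fun F).mp hf
  refine ⟨fun s => if h : s < l then c ⟨s, h⟩ else 0, ?_⟩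
  rw [← hc', Finset.sum_range]
  refine Finset.sum_congr rfl fun s _ => ?_
  simp only [hgen, Fin.is_lt, dif_pos]

/-- The chain rule. -/
lemma chain {ι : Type} [Fintype ι] [Algebra k F] (h0 : ∀ i (c : k), D i (algebraMap k F c) = 0)
    (x : ι → F) (p : MvPolynomial ι k) (i : κ) :
    D i (MvPolynomial.aeval x p) =
      ∑ j, MvPolynomial.aeval x (MvPolynomial.pderiv j p) * D i (x j) := by
  classical
  induction p using MvPolynomial.induction_on with
  | C c => simp [h0]
  | add p q hp hq =>
    rw [map_add, (hD i).add, hp, hq, ← Finset.sum_add_distrib]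
    refine Finset.sum_congr rfl fun j _ => ?_
    rw [map_add, map_add, add_mul]
  | mul_X p j hp =>
    rw [map_mul, (hD i).mul, hp, MvPolynomial.aeval_X, Finset.sum_mul]
    have h1 : ∀ j', MvPolynomial.aeval x (MvPolynomial.pderiv j' (p * MvPolynomial.X j)) *
        D i (x j') = MvPolynomial.aeval x (MvPolynomial.pderiv j' p) * D i (x j') * x j +
        (if j' = j then MvPolynomial.aeval x p * D i (x j) else 0) := by
      intro j'
      rw [Derivation.leibniz, MvPolynomial.pderiv_X]
      by_cases hj : j' = j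
      · subst hj
        simp
        ring
      · rw [Pi.single_eq_of_ne' (by exact hj)]
        simp [hj]
        ring
    simp only [h1, Finset.sum_add_distrib, Finset.sum_ite_eq', Finset.mem_univ, if_true]

end

end Pool.Agent.W944.En
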