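import Pool.Agent.W944.En.Bound
import Pool.Agent.W944.En.Der

/-!
# Encoders with perfect hints, over subfields of `ℂ`
-/

set_option linter.unusedSectionVars false

namespace Pool.Agent.W944.En

open Pool.Agent.W966.Mm Pool.Agent.H515R2.MMR Pool.Agent.H53R3 Module Filter MvPolynomial

/-- The point of the space of outputs and products. -/
def ptoc {k : Type} {n s : ℕ} (o : Fin s → k) (C : Matrix (Fin n) (Fin n) k) :
    Fin s ⊕ Fin n × Fin n → k := Sum.elim o fun p => C p.1 p.2

/-- The output `o` and the matrix `C` satisfy the polynomial relations `R 1, …, R K`, and at this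
point the `K × n²` matrix of the partial derivatives of the relations with respect to the entries
of `C` has rank `K`. -/
def Related {k : Type} [Field k] {n s K : ℕ} (R : Fin K → MvPolynomial (Fin s ⊕ Fin n × Fin n) k)
    (o : Fin s → k) (C : Matrix (Fin n) (Fin n) k) : Prop :=
  (∀ u, eval (ptoc o C) (R u) = 0) ∧
  (Matrix.of fun (u : Fin K) (p : Fin n × Fin n) =>
    eval (ptoc o C) (pderiv (Sum.inr p) (R u))).rank = K

lemma right_inv {k : Type} [Field k] {K : ℕ} {ι : Type} [Fintype ι] [DecidableEq ι]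
    (M : Matrix (Fin K) ι k) (h : M.rank = K) : ∃ M' : Matrix ι (Fin K) k, M * M' = 1 := by
  have h1 : LinearMap.range M.mulVecLin = ⊤ :=
    Submodule.eq_top_of_finrank_eq (by rw [finrank_fin_fun]; exact h)
  obtain ⟨g, hg⟩ := M.mulVecLin.exists_rightInverse_of_surjective h1
  refine ⟨LinearMap.toMatrix' g, ?_⟩
  have e : M = LinearMap.toMatrix' M.mulVecLin := (LinearMap.toMatrix'_toLin' M).symm
  calc M * LinearMap.toMatrix' g = LinearMap.toMatrix' M.mulVecLin * LinearMap.toMatrix' g := by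
        rw [← e]
    _ = 1 := by rw [← LinearMap.toMatrix'_comp, hg, LinearMap.toMatrix'_id]

lemma K_le {F : Type} [Field F] {n K : ℕ} {J : Fin K → Matrix (Fin n) (Fin n) F}
    {J' : Fin K → Fin n → Fin n → F}
    (hJ : ∀ u v, ∑ x, ∑ y, J u x y * J' v x y = if u = v then 1 else 0) : K ≤ n ^ 2 := by
  classical
  let Ψ : (Fin K → F) →ₗ[F] Matrix (Fin n) (Fin n) F := Fintype.linearCombination F J
  have hinj : Function.Injective Ψ := by
    intro w w' hw
    funext v
    have e : ∀ w : Fin K → F, ∑ x, ∑ y, Ψ w x y * J' v x y = w v := by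
      intro w
      have e1 : ∀ x y, Ψ w x y = ∑ u, w u * J u x y := by
        intro x y
        show (Fintype.linearCombination F J w) x y = _
        rw [Fintype.linearCombination_apply, Matrix.sum_apply]
        rfl
      simp only [e1, Finset.sum_mul]
      rw [Finset.sum_congr rfl fun x _ => Finset.sum_comm, Finset.sum_comm]
      have e2 : ∀ u, ∑ x, ∑ y, w u * J u x y * J' v x y = if u = v then w u else 0 := by
        intro u
        simp only [mul_assoc, ← Finset.mul_sum]
        rw [hJ]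
        simp
      simp only [e2, Finset.sum_ite_eq', Finset.mem_univ, if_true]
    rw [← e w, hw, e]
  have := LinearMap.finrank_le_finrank_of_injective hinj
  rwa [finrank_fin_fun, Module.finrank_matrix, Module.finrank_self, Fintype.card_fin, mul_one,
    ← pow_two] at this

section

variable {k : Type} [Field k] {n s : ℕ} (σ : k →+* ℂ) {I : Type} (𝒰 : Ultrafilter I)

/-- The class of a family. -/
noncomputable def eh : (I → k) →+* Fu 𝒰 := (co 𝒰).comp (RingHom.compLeft σ I)

lemma eh_apply (x : I → k) : eh σ 𝒰 x = co 𝒰 fun S => σ (x S) := rfl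

/-- The constants. -/
noncomputable def ph : k →+* Fu 𝒰 := (algebraMap ℂ (Fu 𝒰)).comp σ

lemma ph_apply (c : k) : ph σ 𝒰 c = eh σ 𝒰 fun _ => c := rfl

variable {σ 𝒰}

lemma eh_eq {x y : I → k} : eh σ 𝒰 x = eh σ 𝒰 y ↔ ∀ᶠ S in (𝒰 : Filter I), x S = y S := by
  rw [eh_apply, eh_apply, co_eq]
  constructor
  · intro h
    filter_upwards [h] with S hS
    exact σ.injective hS
  · intro h
    filter_upwards [h] with S hS
    rw [hS]

lemma eh_ne_zero {x : I → k} (h : ∀ᶠ S in (𝒰 : Filter I), x S ≠ 0) : eh σ 𝒰 x ≠ 0 := by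
  intro h0
  rw [← map_zero (eh σ 𝒰), eh_eq] at h0
  obtain ⟨S, h1, h2⟩ := (h.and h0).exists
  exact h1 h2

variable (A B : I → Matrix (Fin n) (Fin n) k)

/-- The class of a family of matrices. -/
noncomputable def mcl (σ : k →+* ℂ) (𝒰 : Ultrafilter I) (A : I → Matrix (Fin n) (Fin n) k) :
    Matrix (Fin n) (Fin n) (Fu 𝒰) := Matrix.of fun i j => eh σ 𝒰 fun S => A S i j

lemma val_eh (f : Lin k n) (l : ℕ) (g : I → ℕ → k) :
    (lmap (ph σ 𝒰) f).val (mcl σ 𝒰 A) (mcl σ 𝒰 B) l (fun s => eh σ 𝒰 fun S => g S s) =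
      eh σ 𝒰 fun S => f.val (A S) (B S) l (g S) := by
  have h : (fun S => f.val (A S) (B S) l (g S)) = (fun _ => f.c) +
      ∑ i, ∑ j, ((fun _ => f.a i j) * (fun S => A S i j) +
        (fun _ => f.b i j) * (fun S => B S i j)) +
      ∑ s ∈ Finset.range l, (fun _ => f.r s) * (fun S => g S s) := by
    funext S
    simp only [Lin.val, Pi.add_apply, Finset.sum_apply, Pi.mul_apply]
  rw [h]
  simp only [Lin.val, lmap, map_add, map_sum, map_mul, ph_apply, mcl, Matrix.of_apply]

lemma eh_upd (g : I → ℕ → k) (l : ℕ) (v : I → k) :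
    (fun s => eh σ 𝒰 fun S => Function.update (g S) l (v S) s) =
      Function.update (fun s => eh σ 𝒰 fun S => g S s) l (eh σ 𝒰 v) := by
  funext s
  by_cases h : s = l
  · subst h; simp
  · simp [Function.update_of_ne h]

/-- **Runs at almost all points give a run over the ultrapower.** -/
theorem los {o : I → Fin s → k} (t : ETree k n s) :
    ∀ (l : ℕ) (g : I → ℕ → k) (L Q : ℕ),
      (∀ᶠ S in (𝒰 : Filter I), t.Can (A S) (B S) (fun o' => o' = o S) l (g S) L Q) →
      (t.tmap (ph σ 𝒰)).Can (mcl σ 𝒰 A) (mcl σ 𝒰 B)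
        (fun o' => o' = fun a => eh σ 𝒰 fun S => o S a) l
        (fun s => eh σ 𝒰 fun S => g S s) L Q := by
  classical
  induction t with
  | output M =>
    intro l g L Q h
    show (fun a => (lmap (ph σ 𝒰) (M a)).val (mcl σ 𝒰 A) (mcl σ 𝒰 B) l
      (fun s => eh σ 𝒰 fun S => g S s)) = _
    funext a
    rw [val_eh, eh_eq]
    filter_upwards [h] with S hS
    exact congrFun hS a
  | mul f h next ih =>
    intro l g L Q hh
    refine ⟨(hh.exists.choose_spec).1, ?_⟩
    have := ih (l + 1) (fun S => Function.update (g S) l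
      (f.val (A S) (B S) l (g S) * h.val (A S) (B S) l (g S))) (L - 1) Q
      (hh.mono fun S hS => hS.2)
    rw [eh_upd] at this
    rw [val_eh, val_eh, ← map_mul]
    exact this
  | div f h next ih =>
    intro l g L Q hh
    have h0 : eh σ 𝒰 (fun S => h.val (A S) (B S) l (g S)) ≠ 0 :=
      eh_ne_zero (hh.mono fun S hS => hS.2.1)
    refine ⟨(hh.exists.choose_spec).1, by rw [val_eh]; exact h0, ?_⟩
    have := ih (l + 1) (fun S => Function.update (g S) l
      (f.val (A S) (B S) l (g S) / h.val (A S) (B S) l (g S))) (L - 1) Q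
      (hh.mono fun S hS => hS.2.2)
    rw [eh_upd] at this
    rw [val_eh, val_eh]
    have e : eh σ 𝒰 (fun S => f.val (A S) (B S) l (g S)) /
        eh σ 𝒰 (fun S => h.val (A S) (B S) l (g S)) =
        eh σ 𝒰 (fun S => f.val (A S) (B S) l (g S) / h.val (A S) (B S) l (g S)) := by
      rw [div_eq_iff h0, ← map_mul, eh_eq]
      filter_upwards [hh] with S hS
      rw [Pi.mul_apply, div_mul_cancel₀ _ hS.2.1]
    rw [e]
    exact this
  | query next ih =>
    intro l g L Q hh
    have hv : ∀ S, ∃ v : k, (0 < Q ∧ ∃ v : k, next.Can (A S) (B S) (fun o' => o' = o S) (l + 1)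
        (Function.update (g S) l v) L (Q - 1)) → next.Can (A S) (B S) (fun o' => o' = o S) (l + 1)
        (Function.update (g S) l v) L (Q - 1) := by
      intro S
      by_cases h : ∃ v : k, next.Can (A S) (B S) (fun o' => o' = o S) (l + 1)
        (Function.update (g S) l v) L (Q - 1)
      · obtain ⟨v, hv⟩ := h
        exact ⟨v, fun _ => hv⟩
      · exact ⟨0, fun h' => absurd h'.2 h⟩
    choose v hv using hv
    refine ⟨(hh.exists.choose_spec).1, eh σ 𝒰 v, ?_⟩
    have := ih (l + 1) (fun S => Function.update (g S) l (v S)) L (Q - 1)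
      (hh.mono fun S hS => hv S hS)
    rw [eh_upd] at this
    exact this
  | test f yes no ihy ihn =>
    intro l g L Q hh
    rcases Ultrafilter.eventually_or.mp hh with h | h
    · refine Or.inl ⟨?_, ihy l g L Q (h.mono fun S hS => hS.2)⟩
      rw [val_eh, ← map_zero (eh σ 𝒰), eh_eq]
      exact h.mono fun S hS => hS.1
    · refine Or.inr ⟨?_, ihn l g L Q (h.mono fun S hS => hS.2)⟩
      rw [val_eh]
      exact eh_ne_zero (h.mono fun S hS => hS.1)
  | choose r next ih =>
    intro l g L Q hh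
    obtain ⟨i, hi⟩ := Ultrafilter.eventually_exists_iff.mp hh
    exact ⟨i, ih i l g L Q hi⟩

end

section

variable {k : Type} [Field k] {n s K L Q q : ℕ}

/-- **Encoders with perfect hints.** -/
theorem hint_bound (σ : k →+* ℂ) (t : ETree k n s) (R : Fin K → MvPolynomial (Fin s ⊕ Fin n × Fin n) k)
    (P : MvPolynomial (Ent n) k) (hP : P ≠ 0)
    (H : ∀ A B : Matrix (Fin n) (Fin n) k, eval (entries A B) P ≠ 0 →
      t.Can A B (fun o => Related R o (A * B)) 0 0 L Q)
    (hdim : s + Q + 3 * q * n < 2 * K) : ((q : ℝ) + 1) ^ omega ≤ 2 * L := by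
  classical
  obtain ⟨I, 𝒰, x, hx1, hx2⟩ := exists_generic σ P hP
  set A : I → Matrix (Fin n) (Fin n) k := fun S => Matrix.of fun i j => x S (Sum.inl (i, j))
    with hA
  set B : I → Matrix (Fin n) (Fin n) k := fun S => Matrix.of fun i j => x S (Sum.inr (i, j))
    with hB
  have hAB : ∀ S, entries (A S) (B S) = x S := by
    intro S
    funext p
    rcases p with p | p <;> rfl
  have hrun : ∀ S, ∃ o, Related R o (A S * B S) ∧
      t.Can (A S) (B S) (fun o' => o' = o) 0 0 L Q := fun S =>
    can_exists t 0 0 L Q (H _ _ (by rw [hAB]; exact hx1 S))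
  choose o ho1 ho2 using hrun
  have hJ' := fun S => right_inv _ (ho1 S).2
  choose J' hJ' using hJ'
  set X := mcl σ 𝒰 A with hX
  set Y := mcl σ 𝒰 B with hY
  have hrunF := los A B t 0 (fun _ => 0) L Q (𝒰 := 𝒰) (σ := σ) (Eventually.of_forall ho2)
  set oF : Fin s → Fu 𝒰 := fun a => eh σ 𝒰 fun S => o S a with hoF
  have hDex := exists_der hx2
  choose D hD hDc hDz using hDex
  have hXY : X * Y = mcl σ 𝒰 fun S => A S * B S := by
    refine Matrix.ext fun i j => ?_
    have h2 : (fun S => (A S * B S) i j) = ∑ r, (fun S => A S i r) * (fun S => B S r j) := by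
      funext S
      simp only [Matrix.mul_apply, Finset.sum_apply, Pi.mul_apply]
    have h3 : (mcl σ 𝒰 fun S => A S * B S) i j = eh σ 𝒰 (fun S => (A S * B S) i j) := rfl
    rw [h3, h2, map_sum, Matrix.mul_apply]
    simp only [map_mul, hX, hY, mcl, Matrix.of_apply]
  have hpt : ptoc oF (X * Y) = fun l => co 𝒰 fun S => σ (ptoc (o S) (A S * B S) l) := by
    funext l
    rcases l with a | p
    · rfl
    · rw [hXY]; rfl
  have hev : ∀ G : MvPolynomial (Fin s ⊕ Fin n × Fin n) k, aeval (ptoc oF (X * Y)) (MvPolynomial.map σ G) =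
      eh σ 𝒰 fun S => eval (ptoc (o S) (A S * B S)) G := by
    intro G
    rw [hpt, aeval_co (fun S l => σ (ptoc (o S) (A S * B S) l)), eh_apply]
    congr 1
    funext S
    rw [eval_map]
    have e := eval₂_comp_left σ (RingHom.id k) (ptoc (o S) (A S * B S)) G
    rw [RingHom.comp_id, eval₂_id] at e
    exact e.symm
  have hdet : IsUnit X.det := by
    rw [isUnit_iff_ne_zero]
    have e1 : X.det = aeval (fun l => co 𝒰 fun S => σ (x S l))
        (Matrix.of fun i j : Fin n => (MvPolynomial.X (Sum.inl (i, j)) :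
          MvPolynomial (Ent n) ℂ)).det := by
      rw [← AlgHom.coe_toRingHom, RingHom.map_det, RingHom.mapMatrix_apply]
      congr 1
      refine Matrix.ext fun i j => ?_
      simp only [Matrix.map_apply, Matrix.of_apply, AlgHom.coe_toRingHom, aeval_X, hX, mcl,
        eh_apply, hA]
    rw [e1]
    intro h0
    have h1 := hx2 (h0.trans (map_zero _).symm)
    have h2 := congrArg (eval (entries (1 : Matrix (Fin n) (Fin n) ℂ) 0)) h1
    rw [RingHom.map_det, RingHom.mapMatrix_apply, map_zero] at h2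
    have h3 : (Matrix.of fun i j : Fin n => (MvPolynomial.X (Sum.inl (i, j)) :
          MvPolynomial (Ent n) ℂ)).map (eval (entries (1 : Matrix (Fin n) (Fin n) ℂ) 0)) = 1 := by
      refine Matrix.ext fun i j => ?_
      simp [entries]
    rw [h3, Matrix.det_one] at h2
    exact one_ne_zero h2
  have hDc' : ∀ i c, D i (ph σ 𝒰 c) = 0 := fun i c => hDc i (σ c)
  have hJF : ∀ u v : Fin K, ∑ y, ∑ z, (Matrix.of fun y z => aeval (ptoc oF (X * Y))
      (pderiv (Sum.inr (y, z)) (MvPolynomial.map σ (R u))) : Matrix (Fin n) (Fin n) (Fu 𝒰)) y z *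
        (eh σ 𝒰 fun S => J' S (y, z) v) = if u = v then 1 else 0 := by
    intro u v
    have e1 : ∀ y z, (Matrix.of fun y z => aeval (ptoc oF (X * Y))
      (pderiv (Sum.inr (y, z)) (MvPolynomial.map σ (R u))) : Matrix (Fin n) (Fin n) (Fu 𝒰)) y z =
        eh σ 𝒰 fun S => eval (ptoc (o S) (A S * B S)) (pderiv (Sum.inr (y, z)) (R u)) := by
      intro y z
      rw [Matrix.of_apply, ← hev, pderiv_map]
    simp only [e1, ← map_mul, ← map_sum]
    have e2 : (if u = v then (1 : Fu 𝒰) else 0) = eh σ 𝒰 (fun _ => if u = v then 1 else 0) := by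
      split_ifs
      · exact (map_one (eh σ 𝒰)).symm
      · exact (map_zero (eh σ 𝒰)).symm
    rw [e2, eh_eq]
    refine Eventually.of_forall fun S => ?_
    have e3 := congrFun (congrFun (hJ' S) u) v
    rw [Matrix.mul_apply, Fintype.sum_prod_type, Matrix.one_apply] at e3
    simp only [Matrix.of_apply] at e3
    simp only [Finset.sum_apply, Pi.mul_apply]
    exact e3
  have hsum : ∀ (f : Fin s ⊕ Fin n × Fin n → Fu 𝒰),
      ∑ j, f j = ∑ a, f (Sum.inl a) + ∑ y, ∑ z, f (Sum.inr (y, z)) := fun f => by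
    rw [Fintype.sum_sum_type, Fintype.sum_prod_type]
  obtain ⟨l, T, hT, hTc, hl, hsys⟩ := coreF (ph σ 𝒰) (K := K) X Y D hD hDc'
    (fun i a b => by
      have : X a b = co 𝒰 fun S => σ (x S (Sum.inl (a, b))) := rfl
      rw [this, hDz]
      by_cases h : i = Sum.inl (a, b) <;> simp [h, eq_comm])
    (fun i a b => by
      have : Y a b = co 𝒰 fun S => σ (x S (Sum.inr (a, b))) := rfl
      rw [this, hDz]
      by_cases h : i = Sum.inr (a, b) <;> simp [h, eq_comm])
    hdet t oF _ hrunF
    (fun u a => aeval (ptoc oF (X * Y)) (pderiv (Sum.inl a) (MvPolynomial.map σ (R u))))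
    (fun u => Matrix.of fun y z => aeval (ptoc oF (X * Y)) (pderiv (Sum.inr (y, z)) (MvPolynomial.map σ (R u))))
    (fun v y z => eh σ 𝒰 fun S => J' S (y, z) v) hJF
    (fun i u => by
      have e1 := chain D hD (algebraMap ℂ (Fu 𝒰)) hDc (fun i c => hDc i c) (ptoc oF (X * Y)) (MvPolynomial.map σ (R u)) i
      rw [hsum, hev] at e1
      have e2 : (eh σ 𝒰 fun S => eval (ptoc (o S) (A S * B S)) (R u)) = 0 := by
        rw [← map_zero (eh σ 𝒰), eh_eq]
        exact Eventually.of_forall fun S => (ho1 S).1 u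
      rw [e2, (hD i).zero] at e1
      exact e1.symm)
    (fun ξ hξ1 hξ2 => by
      have hδ := cmb_isDer D hD ξ
      have hδc : ∀ (c : ℂ), cmb D ξ (algebraMap ℂ (Fu 𝒰) c) = 0 := fun c => by
        simp only [cmb, hDc, mul_zero, Finset.sum_const_zero]
      have e1 : ∀ G : MvPolynomial (Fin s ⊕ Fin n × Fin n) ℂ,
          cmb D ξ (aeval (ptoc oF (X * Y)) G) = 0 := by
        intro G
        have := chain (fun _ : Unit => cmb D ξ) (fun _ => hδ) (algebraMap ℂ (Fu 𝒰))
          (fun _ c => hδc c) (fun _ c => hδc c) (ptoc oF (X * Y)) G ()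
        rw [this, hsum]
        have e2 : ∀ a, cmb D ξ (ptoc oF (X * Y) (Sum.inl a)) = 0 := hξ1
        have e3 : ∀ y z, cmb D ξ (ptoc oF (X * Y) (Sum.inr (y, z))) = 0 := hξ2
        simp only [e2, e3, mul_zero, Finset.sum_const_zero, add_zero]
      exact ⟨fun u a => e1 _, fun u y z => e1 _⟩)
  have hK := K_le hJF
  exact sys_omega (transfer (hsys (n ^ 2 + K - s) (by omega))) hT hl (by omega)

end

end Pool.Agent.W944.En
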