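import Pool.Agent.W944.En.Det
import Pool.Agent.W944.En.BoundC

/-!
# Encoders: bounds
-/

set_option linter.unusedSectionVars false

namespace Pool.Agent.W944.En

open Pool.Agent.W966.Mm Pool.Agent.H515R2.MMR Module MvPolynomial

/-- The output of the algorithm `t` determines the values `g 1 (A B), …, g K (A B)`: for some
function `dec` (which need not be computable) all of whose values are countable sets, and for all
pairs `A, B` outside the zero set of some nonzero polynomial, `t` has some possible output, and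
every possible output `o` satisfies `(g 1 (A B), …, g K (A B)) ∈ dec o`. Here the possible outputs
are those of the outcomes of the random choices for which `t` makes at most `L` multiplications
and divisions, no query and no division by `0`. -/
def Determines {n s K : ℕ} (t : ETree ℂ n s) (g : Fin K → MvPolynomial (Fin n × Fin n) ℂ)
    (L : ℕ) : Prop :=
  ∃ (P : MvPolynomial (Ent n) ℂ) (dec : (Fin s → ℂ) → Set (Fin K → ℂ)), P ≠ 0 ∧
    (∀ o, (dec o).Countable) ∧
    ∀ A B : Matrix (Fin n) (Fin n) ℂ, eval (entries A B) P ≠ 0 →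
      t.Can A B (fun _ => True) 0 0 L 0 ∧
      ∀ o, t.Can A B (fun o' => o' = o) 0 0 L 0 → vals g (A * B) ∈ dec o

/-- With `Q` perfect hints the algorithm `t` can output a vector `o` which is related to the
product `A B` by the polynomial relations `R`: for all pairs `A, B` outside the zero set of some
nonzero polynomial there are outcomes of the random choices and answers to the queries for which
`t` makes at most `L` multiplications and divisions, at most `Q` queries and no division by `0`,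
and `R u (o, A B) = 0` for all `u`, with a `K × n ^ 2` matrix of partial derivatives with respect
to the entries of `A B` of rank `K`. -/
def CanRelate {k : Type} [Field k] {n s K : ℕ} (t : ETree k n s)
    (R : Fin K → MvPolynomial (Fin s ⊕ Fin n × Fin n) k) (L Q : ℕ) : Prop :=
  ∃ P : MvPolynomial (Ent n) k, P ≠ 0 ∧ ∀ A B : Matrix (Fin n) (Fin n) k,
    eval (entries A B) P ≠ 0 → t.Can A B (fun o => Related R o (A * B)) 0 0 L Q

/-- The `n ^ 2` entries, as polynomials. -/
noncomputable def allEntries (n : ℕ) : Fin (n * n) → MvPolynomial (Fin n × Fin n) ℂ :=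
  fun u => X (finProdFinEquiv.symm u)

lemma allEntries_indep (n : ℕ) : AlgebraicIndependent ℂ (allEntries n) :=
  (MvPolynomial.algebraicIndependent_X (Fin n × Fin n) ℂ).comp finProdFinEquiv.symm
    finProdFinEquiv.symm.injective

section

variable {n s K L q : ℕ}

theorem determine_bound (t : ETree ℂ n s) (g : Fin K → MvPolynomial (Fin n × Fin n) ℂ)
    (hg : AlgebraicIndependent ℂ g) (H : Determines t g L) (hdim : s + 3 * q * n < 2 * K) :
    ((q : ℝ) + 1) ^ omega ≤ 2 * L := by
  obtain ⟨P, dec, hP, hdec, H⟩ := H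
  obtain ⟨hK, l, hl, hsys⟩ := determine_sys t g hg P hP dec hdec H
  exact sys_omega (hsys (n ^ 2 + K - s) (by omega)) (by simp) (by simpa using hl)
    (by simp only [Finset.card_empty]; omega)

theorem determine_rank (t : ETree ℂ n s) (H : Determines t (allEntries n) L) {m : ℕ}
    (hm : m ≤ n) (hs : s < n ^ 2 + (n - m + 1) ^ 2) : HasRank m (2 * L) := by
  obtain ⟨P, dec, hP, hdec, H⟩ := H
  obtain ⟨hK, l, hl, hsys⟩ := determine_sys t _ (allEntries_indep n) P hP dec hdec H
  have e : n * n = n ^ 2 := (pow_two n).symm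
  have hsys' : ∀ h, h + s ≤ n ^ 2 + n ^ 2 → SysE ℂ n (n ^ 2) h l ∅ := by
    intro h hh
    have := hsys h (by rw [e]; exact hh)
    rwa [e] at this
  rcases Nat.eq_zero_or_pos m with hm0 | hm0
  · subst hm0
    exact ⟨fun _ _ _ => 0, fun _ _ _ => 0, fun _ _ _ => 0, fun i => i.elim0⟩
  · have h1 : (n - m + 1) ^ 2 ≤ n ^ 2 := Nat.pow_le_pow_left (by omega) 2
    exact sys_const (hsys' (n ^ 2 + n ^ 2 - s) (by omega)) hl hm (by omega)

/-- **Encoders with arbitrary decoders: a constant factor.** -/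
theorem determine_rk {ε : ℝ} (hε : 0 < ε) (t : ETree ℂ n s) (H : Determines t (allEntries n) L)
    (hs : (s : ℝ) ≤ (2 - ε) * (n : ℝ) ^ 2) : (rk n : ℝ) ≤ 2 * (2 / ε + 1) ^ 3 * L := by
  rcases Nat.eq_zero_or_pos n with hn | hn
  · subst hn
    rw [rk_zero]
    push_cast
    positivity
  have hn0 : (0 : ℝ) < n := by exact_mod_cast hn
  have hn1 : (1 : ℝ) ≤ n := by exact_mod_cast hn
  have hL0 : (0 : ℝ) ≤ L := Nat.cast_nonneg L
  rcases le_or_gt 1 ε with hε1 | hε1
  · have hr := determine_rank t H (m := n) le_rfl (by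
      have h1 : (s : ℝ) ≤ (n : ℝ) ^ 2 := hs.trans (by nlinarith [sq_nonneg (n : ℝ)])
      have h2 : s ≤ n ^ 2 := by exact_mod_cast h1
      have h3 : 0 < (n - n + 1) ^ 2 := by positivity
      omega)
    have h1 : (rk n : ℝ) ≤ 2 * L := by exact_mod_cast rk_le hr
    have h2 : (1 : ℝ) ≤ (2 / ε + 1) ^ 3 := one_le_pow₀ (by
      have : 0 < 2 / ε := by positivity
      linarith)
    nlinarith
  · obtain ⟨q, hq1, hq2⟩ : ∃ q : ℕ, (q : ℝ) ≤ ε / 2 * n ∧ ε / 2 * n < (q : ℝ) + 1 :=
      ⟨⌊ε / 2 * n⌋₊, Nat.floor_le (by positivity), Nat.lt_floor_add_one _⟩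
    have hqn : q + 1 ≤ n := by
      by_contra hcon
      push Not at hcon
      have : (n : ℝ) ≤ q := by exact_mod_cast (by omega : n ≤ q)
      nlinarith
    have hr := determine_rank t H (m := q + 1) hqn (by
      obtain ⟨r, hr⟩ : ∃ r, n = r + (q + 1) := ⟨n - (q + 1), by omega⟩
      have e1 : n - (q + 1) + 1 = r + 1 := by omega
      rw [e1]
      have h1 : ((r : ℝ) + 1) = n - q := by rw [hr]; push_cast; ring
      have : ((s : ℕ) : ℝ) < ((n ^ 2 + (r + 1) ^ 2 : ℕ) : ℝ) := by
        push_cast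
        rw [h1]
        have h3 : ((n : ℝ) - ε / 2 * n) ^ 2 ≤ ((n : ℝ) - q) ^ 2 := by
          refine pow_le_pow_left₀ ?_ (by linarith) 2
          nlinarith
        have h4 : 0 < (ε / 2 * (n : ℝ)) ^ 2 := by positivity
        nlinarith
      exact_mod_cast this)
    have h2 := rk_le_of_hasRank (n := n) (c := 2 / ε) (Nat.succ_pos q) (by
      push_cast
      rw [div_mul_eq_mul_div, le_div_iff₀ hε]
      nlinarith) hr
    refine h2.trans (le_of_eq ?_)
    push_cast
    ring

end

/-! ### The asymptotic form -/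

theorem both_asym {ε τ D : ℝ} (hε : 0 < ε)
    (H : ∀ N : ℕ, ∃ n : ℕ, N ≤ n ∧ ∃ L : ℕ, (L : ℝ) ≤ D * (n : ℝ) ^ τ ∧
      ((∃ (s K : ℕ) (t : ETree ℂ n s) (g : Fin K → MvPolynomial (Fin n × Fin n) ℂ),
        AlgebraicIndependent ℂ g ∧ Determines t g L ∧
        (s : ℝ) + ε * (n : ℝ) ^ 2 ≤ 2 * K) ∨
      ∃ (k : Type) (_ : Field k) (_ : k →+* ℂ) (s K Q : ℕ) (t : ETree k n s)
        (R : Fin K → MvPolynomial (Fin s ⊕ Fin n × Fin n) k), CanRelate t R L Q ∧
        (s : ℝ) + Q + ε * (n : ℝ) ^ 2 ≤ 2 * K)) : omega ≤ τ := by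
  refine omega_le_of_inf (c := ε / 3) (D := D) (by positivity) fun N => ?_
  obtain ⟨n, hn, L, hL, h⟩ := H (max N 1)
  have hn1 : 1 ≤ n := (le_max_right _ _).trans hn
  refine ⟨n, (le_max_left _ _).trans hn, L, ?_, hL⟩
  rw [show ε / 3 * (n : ℝ) = ε * n / 3 by ring]
  have h0 : (0 : ℝ) ≤ ε * (n : ℝ) ^ 2 := by positivity
  rcases h with ⟨s, K, t, g, hg, hdet, hd⟩ | ⟨k, _, σ, s, K, Q, t, R, ⟨P, hP, hgood⟩, hd⟩
  · have hsQ : s ≤ 2 * K := by
      have h2 : ((s : ℕ) : ℝ) ≤ ((2 * K : ℕ) : ℝ) := by push_cast; linarith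
      exact_mod_cast h2
    exact eps_bound (n := n) hε hn1 (d := 2 * n ^ 2 + (2 * K - s)) (M := 2 * (L : ℝ))
      (by
        push_cast [Nat.cast_sub hsQ]
        nlinarith) (fun q hq => determine_bound t g hg hdet (by omega))
  · have hsQ : s + Q ≤ 2 * K := by
      have h2 : ((s + Q : ℕ) : ℝ) ≤ ((2 * K : ℕ) : ℝ) := by push_cast; linarith
      exact_mod_cast h2
    exact eps_bound (n := n) hε hn1 (d := 2 * n ^ 2 + (2 * K - (s + Q))) (M := 2 * (L : ℝ))
      (by
        push_cast [Nat.cast_sub hsQ]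
        nlinarith) (fun q hq => hint_bound σ t R P hP hgood (by omega))

end Pool.Agent.W944.En
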