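import Pool.Agent.W944.En.Main

/-!
# Encoders: upper bounds
-/

set_option linter.unusedSectionVars false

namespace Pool.Agent.W944.En

open Pool.Agent.W966.Mm Pool.Agent.H515R2.MMR Module MvPolynomial

section

variable {k : Type} [Field k] {n s : ℕ}

/-- Multiply the pairs `f i, h i`, `i₀ ≤ i < i₀ + r`, then continue with `t`. -/
def mulN (f h : ℕ → Lin k n) (t : ETree k n s) : ℕ → ℕ → ETree k n s
  | 0, _ => t
  | r + 1, i => .mul (f i) (h i) (mulN f h t r (i + 1))

lemma mulN_can {A B : Matrix (Fin n) (Fin n) k} {E : (Fin s → k) → Prop} {f h : ℕ → Lin k n}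
    {F G : ℕ → k} {t : ETree k n s} {Q : ℕ} (hf : ∀ i l g, (f i).val A B l g = F i)
    (hh : ∀ i l g, (h i).val A B l g = G i) :
    ∀ (r i : ℕ) (g : ℕ → k) (L : ℕ), (mulN f h t r i).Can A B E i g (L + r) Q ↔
      t.Can A B E (i + r) (fun m => if i ≤ m ∧ m < i + r then F m * G m else g m) L Q := by
  intro r
  induction r with
  | zero =>
    intro i g L
    have e : (fun m => if i ≤ m ∧ m < i + 0 then F m * G m else g m) = g := by
      funext m
      rw [if_neg (by omega)]
    rw [e]
    exact Iff.rfl
  | succ r ih =>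
    intro i g L
    have e1 : (mulN f h t (r + 1) i).Can A B E i g (L + (r + 1)) Q ↔
        (mulN f h t r (i + 1)).Can A B E (i + 1) (Function.update g i (F i * G i)) (L + r) Q := by
      have : (mulN f h t (r + 1) i).Can A B E i g (L + (r + 1)) Q ↔ 0 < L + (r + 1) ∧
        (mulN f h t r (i + 1)).Can A B E (i + 1) (Function.update g i
          ((f i).val A B i g * (h i).val A B i g)) (L + (r + 1) - 1) Q := Iff.rfl
      rw [this, hf, hh]
      have e2 : L + (r + 1) - 1 = L + r := by omega
      rw [e2]
      exact ⟨fun h => h.2, fun h => ⟨by omega, h⟩⟩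
    rw [e1, ih]
    have e3 : i + 1 + r = i + (r + 1) := by omega
    have e4 : (fun m => if i + 1 ≤ m ∧ m < i + 1 + r then F m * G m else
        Function.update g i (F i * G i) m) =
        fun m => if i ≤ m ∧ m < i + (r + 1) then F m * G m else g m := by
      funext m
      by_cases hm : m = i
      · subst hm
        rw [if_neg (by omega), if_pos (by omega), Function.update_self]
      · rw [Function.update_of_ne hm]
        by_cases h1 : i + 1 ≤ m ∧ m < i + 1 + r
        · rw [if_pos h1, if_pos (by omega)]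
        · rw [if_neg h1, if_neg (by omega)]
    rw [e4, e3]

end

/-- A linear functional in coordinates. -/
lemma lin_coord {n : ℕ} (f : Mat n →ₗ[ℂ] ℂ) (A : Mat n) :
    f A = ∑ i, ∑ j, f (Matrix.single i j 1) * A i j := by
  conv_lhs => rw [Matrix.matrix_eq_sum_single A]
  rw [map_sum]
  refine Finset.sum_congr rfl fun i _ => ?_
  rw [map_sum]
  refine Finset.sum_congr rfl fun j _ => ?_
  have : Matrix.single i j (A i j) = A i j • Matrix.single i j (1 : ℂ) := by
    rw [Matrix.smul_single, smul_eq_mul, mul_one]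
  rw [this, map_smul, smul_eq_mul, mul_comm]

lemma pol_ne {κ : Type} : (1 : MvPolynomial κ ℂ) ≠ 0 := one_ne_zero

/-- **Computing the product.** -/
theorem encode_rank {n r : ℕ} (hnr : HasRank n r) :
    ∃ t : ETree ℂ n (n * n), Determines t (allEntries n) r := by
  classical
  obtain ⟨f, g, h, H⟩ := hasRestrRank_of_hasRank hnr (⊤ : Submodule ℂ (Mat n)) ⊤ ⊤
  let lf : ℕ → Lin ℂ n := fun i => ⟨0, fun x y => if hi : i < r then
    f ⟨i, hi⟩ (Matrix.single x y 1) else 0, 0, 0⟩
  let lg : ℕ → Lin ℂ n := fun i => ⟨0, 0, fun x y => if hi : i < r then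
    g ⟨i, hi⟩ (Matrix.single x y 1) else 0, 0⟩
  let M : Fin (n * n) → Lin ℂ n := fun u => ⟨0, 0, 0, fun i => if hi : i < r then
    h ⟨i, hi⟩ (Matrix.single (finProdFinEquiv.symm u).2 (finProdFinEquiv.symm u).1 1) else 0⟩
  let t : ETree ℂ n (n * n) := mulN lf lg (.output M) r 0
  have hlf : ∀ (A B : Matrix (Fin n) (Fin n) ℂ) i l g', (lf i).val A B l g' =
      if hi : i < r then f ⟨i, hi⟩ A else 0 := by
    intro A B i l g'
    by_cases hi : i < r
    · simp only [lf, Lin.val, hi, dif_pos, Pi.zero_apply, zero_mul, add_zero, zero_add,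
        Finset.sum_const_zero]
      exact (lin_coord _ A).symm
    · simp [lf, Lin.val, hi]
  have hlg : ∀ (A B : Matrix (Fin n) (Fin n) ℂ) i l g', (lg i).val A B l g' =
      if hi : i < r then g ⟨i, hi⟩ B else 0 := by
    intro A B i l g'
    by_cases hi : i < r
    · simp only [lg, Lin.val, hi, dif_pos, Pi.zero_apply, zero_mul, add_zero, zero_add,
        Finset.sum_const_zero]
      exact (lin_coord _ B).symm
    · simp [lg, Lin.val, hi]
  have hout : ∀ (A B : Matrix (Fin n) (Fin n) ℂ) (E : (Fin (n * n) → ℂ) → Prop),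
      t.Can A B E 0 0 r 0 ↔ E fun u => (A * B) (finProdFinEquiv.symm u).1
        (finProdFinEquiv.symm u).2 := by
    intro A B E
    have h1 := mulN_can (E := E) (t := .output M) (Q := 0) (hlf A B) (hlg A B) r 0 0 0
    rw [zero_add] at h1
    show (mulN lf lg (.output M) r 0).Can A B E 0 0 r 0 ↔ _
    rw [h1]
    show E _ ↔ E _
    have e : ∀ u : Fin (n * n), (M u).val A B r (fun m => if 0 ≤ m ∧ m < r then
        (if hi : m < r then f ⟨m, hi⟩ A else 0) * (if hi : m < r then g ⟨m, hi⟩ B else 0)
          else (0 : ℕ → ℂ) m) =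
        (A * B) (finProdFinEquiv.symm u).1 (finProdFinEquiv.symm u).2 := by
      intro u
      have h2 := H A trivial B trivial
        (Matrix.single (finProdFinEquiv.symm u).2 (finProdFinEquiv.symm u).1 1) trivial
      rw [Matrix.trace_mul_comm, Matrix.trace_single_mul, one_smul] at h2
      rw [h2]
      simp only [M, Lin.val, Pi.zero_apply, zero_mul, add_zero, zero_add,
        Finset.sum_const_zero]
      rw [Finset.sum_range]
      refine Finset.sum_congr rfl fun i _ => ?_
      simp only [Fin.is_lt, dif_pos, Nat.zero_le, true_and, if_true, Fin.eta]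
      ring
    exact iff_of_eq (congrArg E (funext e))
  refine ⟨t, 1, fun o => {o}, pol_ne, fun o => Set.countable_singleton _, fun A B _ => ⟨?_, ?_⟩⟩
  · rw [hout]
    trivial
  · intro o ho
    rw [hout] at ho
    rw [Set.mem_singleton_iff, ← ho]
    funext u
    show eval (fun p => (A * B) p.1 p.2) (allEntries n u) = _
    rw [allEntries, eval_X]

/-- **Sending the input.** -/
theorem encode_input (n : ℕ) : ∃ (s : ℕ) (t : ETree ℂ n s), s = 2 * n ^ 2 ∧
    Determines t (allEntries n) 0 := by
  classical
  let M : Fin (n * n + n * n) → Lin ℂ n := Fin.addCases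
    (fun u => ⟨0, fun x y => if finProdFinEquiv (x, y) = u then 1 else 0, 0, 0⟩)
    (fun u => ⟨0, 0, fun x y => if finProdFinEquiv (x, y) = u then 1 else 0, 0⟩)
  refine ⟨n * n + n * n, .output M, by ring, 1,
    fun o => {vals (allEntries n)
      ((Matrix.of fun x y => o (Fin.castAdd _ (finProdFinEquiv (x, y)))) *
        (Matrix.of fun x y => o (Fin.natAdd _ (finProdFinEquiv (x, y)))))},
    pol_ne, fun o => Set.countable_singleton _, fun A B _ => ⟨trivial, fun o ho => ?_⟩⟩
  have ho' : (fun a => (M a).val A B 0 0) = o := ho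
  have hA : (Matrix.of fun x y => o (Fin.castAdd _ (finProdFinEquiv (x, y)))) = A := by
    refine Matrix.ext fun x y => ?_
    rw [Matrix.of_apply, ← ho']
    simp only [M, Fin.addCases_left, Lin.val, Pi.zero_apply, zero_mul, add_zero, zero_add,
      Finset.range_zero, Finset.sum_empty, EmbeddingLike.apply_eq_iff_eq, Prod.mk.injEq, ite_mul,
      one_mul]
    rw [Finset.sum_eq_single x, Finset.sum_eq_single y]
    · simp
    · intro y' _ hy'; simp [hy']
    · intro h; exact absurd (Finset.mem_univ _) h
    · intro x' _ hx'; simp [hx']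
    · intro h; exact absurd (Finset.mem_univ _) h
  have hB : (Matrix.of fun x y => o (Fin.natAdd _ (finProdFinEquiv (x, y)))) = B := by
    refine Matrix.ext fun x y => ?_
    rw [Matrix.of_apply, ← ho']
    simp only [M, Fin.addCases_right, Lin.val, Pi.zero_apply, zero_mul, add_zero, zero_add,
      Finset.range_zero, Finset.sum_empty, EmbeddingLike.apply_eq_iff_eq, Prod.mk.injEq, ite_mul,
      one_mul]
    rw [Finset.sum_eq_single x, Finset.sum_eq_single y]
    · simp
    · intro y' _ hy'; simp [hy']
    · intro h; exact absurd (Finset.mem_univ _) h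
    · intro x' _ hx'; simp [hx']
    · intro h; exact absurd (Finset.mem_univ _) h
  rw [Set.mem_singleton_iff, hA, hB]

/-- The least cost of an algorithm with at most `(2 - ε) n ^ 2` outputs which determine the
product. -/
noncomputable def encCost (ε : ℝ) (n : ℕ) : ℕ :=
  sInf {L : ℕ | ∃ (s : ℕ) (t : ETree ℂ n s), (s : ℝ) ≤ (2 - ε) * (n : ℝ) ^ 2 ∧
    Determines t (allEntries n) L}

theorem encode_rk (n : ℕ) : ∃ t : ETree ℂ n (n * n), Determines t (allEntries n) (rk n) :=
  encode_rank (hasRank_rk n)

theorem encCost_bounds {ε : ℝ} (hε : 0 < ε) (hε1 : ε ≤ 1) (n : ℕ) :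
    encCost ε n ≤ rk n ∧ (rk n : ℝ) ≤ 2 * (2 / ε + 1) ^ 3 * encCost ε n := by
  obtain ⟨t, ht⟩ := encode_rk n
  have hmem : rk n ∈ {L : ℕ | ∃ (s : ℕ) (t : ETree ℂ n s), (s : ℝ) ≤ (2 - ε) * (n : ℝ) ^ 2 ∧
      Determines t (allEntries n) L} := by
    refine ⟨n * n, t, ?_, ht⟩
    push_cast
    nlinarith [sq_nonneg (n : ℝ)]
  refine ⟨Nat.sInf_le hmem, ?_⟩
  obtain ⟨s, t', hs, ht'⟩ := Nat.sInf_mem ⟨_, hmem⟩
  exact determine_rk hε t' ht' hs

/-- Ask `r` queries. -/
def askE {k : Type} {n s : ℕ} (t : ETree k n s) : ℕ → ETree k n s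
  | 0 => t
  | r + 1 => .query (askE t r)

lemma askE_can {k : Type} [Field k] {n s : ℕ} {A B : Matrix (Fin n) (Fin n) k}
    {E : (Fin s → k) → Prop} {t : ETree k n s} {L Q : ℕ} (v : ℕ → k) :
    ∀ (r l : ℕ) (g : ℕ → k), (∀ m, m < l → g m = v m) →
      (∀ g', (∀ m, m < l + r → g' m = v m) → t.Can A B E (l + r) g' L Q) →
      (askE t r).Can A B E l g L (Q + r) := by
  intro r
  induction r with
  | zero =>
    intro l g hg h
    exact h g hg
  | succ r ih =>
    intro l g hg h
    refine ⟨by omega, v l, ?_⟩
    have := ih (l + 1) (Function.update g l (v l)) (fun m hm => by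
      rcases Nat.lt_succ_iff_lt_or_eq.mp hm with h1 | h1
      · rw [Function.update_of_ne (by omega)]; exact hg m h1
      · subst h1; rw [Function.update_self]) (fun g' hg' => by
      have e : l + 1 + r = l + (r + 1) := by omega
      rw [e]
      exact h g' fun m hm => hg' m (by omega))
    exact this

/-- **Perfect hints.** -/
theorem hint_sharp (k : Type) [Field k] (n : ℕ) : ∃ (s K Q : ℕ) (t : ETree k n s)
    (R : Fin K → MvPolynomial (Fin s ⊕ Fin n × Fin n) k), s = n ^ 2 ∧ K = n ^ 2 ∧ Q = n ^ 2 ∧
    CanRelate t R 0 Q := by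
  classical
  refine ⟨n * n, n * n, n * n, askE (.output fun u => ⟨0, fun _ _ => 0, fun _ _ => 0,
    fun m => if m = (u : ℕ) then 1 else 0⟩) (n * n), fun u => X (Sum.inl u) -
      X (Sum.inr (finProdFinEquiv.symm u)), (pow_two n).symm, (pow_two n).symm, (pow_two n).symm,
    1, one_ne_zero, fun A B _ => ?_⟩
  have h := askE_can (A := A) (B := B) (L := 0) (Q := 0)
    (E := fun o => Related (fun u => X (Sum.inl u) - X (Sum.inr (finProdFinEquiv.symm u)) :
      Fin (n * n) → MvPolynomial (Fin (n * n) ⊕ Fin n × Fin n) k) o (A * B))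
    (t := .output fun u => ⟨0, fun _ _ => 0, fun _ _ => 0,
      fun m => if m = (u : ℕ) then 1 else 0⟩)
    (fun m => if hm : m < n * n then (A * B) (finProdFinEquiv.symm ⟨m, hm⟩).1
      (finProdFinEquiv.symm ⟨m, hm⟩).2 else 0) (n * n) 0 0 (fun m hm => by omega)
    (fun g' hg' => by
      rw [zero_add] at hg'
      have hval : (fun a : Fin (n * n) => (⟨0, fun _ _ => 0, fun _ _ => 0,
          fun m => if m = (a : ℕ) then 1 else 0⟩ : Lin k n).val A B (0 + n * n) g') =
          fun a => (A * B) (finProdFinEquiv.symm a).1 (finProdFinEquiv.symm a).2 := by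
        funext a
        rw [Lin.val]
        simp only [zero_mul, add_zero, Finset.sum_const_zero, zero_add]
        rw [Finset.sum_range, Finset.sum_eq_single a]
        · rw [if_pos rfl, one_mul, hg' a a.2, dif_pos a.2]
        · intro b _ hb
          rw [if_neg (fun h => hb (Fin.ext h)), zero_mul]
        · intro h; exact absurd (Finset.mem_univ _) h
      show Related _ _ _
      rw [hval]
      refine ⟨fun u => ?_, ?_⟩
      · simp [ptoc]
      · set M : Matrix (Fin (n * n)) (Fin n × Fin n) k := Matrix.of fun u p =>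
          eval (ptoc (fun a => (A * B) (finProdFinEquiv.symm a).1 (finProdFinEquiv.symm a).2)
            (A * B)) (pderiv (Sum.inr p) (X (Sum.inl u) - X (Sum.inr (finProdFinEquiv.symm u))))
          with hM
        have hMe : ∀ u p, M u p = if finProdFinEquiv.symm u = p then -1 else 0 := by
          intro u p
          rw [hM, Matrix.of_apply, map_sub, pderiv_X, pderiv_X]
          by_cases h : finProdFinEquiv.symm u = p
          · subst h
            simp
          · have h' : (Sum.inr (finProdFinEquiv.symm u) : Fin (n * n) ⊕ Fin n × Fin n) ≠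
              Sum.inr p := fun h2 => h (Sum.inr.inj h2)
            have h'' : (Sum.inl u : Fin (n * n) ⊕ Fin n × Fin n) ≠ Sum.inr p := by simp
            rw [Pi.single_eq_of_ne h'', Pi.single_eq_of_ne h', sub_zero, map_zero, if_neg h]
        set M2 : Matrix (Fin n × Fin n) (Fin (n * n)) k :=
          Matrix.of fun p v => if finProdFinEquiv.symm v = p then -1 else 0 with hM2
        have hMM : M * M2 = 1 := by
          refine Matrix.ext fun u v => ?_
          rw [Matrix.mul_apply]
          simp only [hMe, hM2, Matrix.of_apply, ite_mul, zero_mul, Finset.sum_ite_eq,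
            Finset.mem_univ, if_true, Matrix.one_apply, EmbeddingLike.apply_eq_iff_eq]
          by_cases huv : u = v
          · subst huv; simp
          · simp [huv, Ne.symm huv]
        have h1 : n * n ≤ M.rank := by
          have := Matrix.rank_mul_le_left M M2
          rwa [hMM, Matrix.rank_one, Fintype.card_fin] at this
        have h2 : M.rank ≤ n * n := by
          have := M.rank_le_card_height
          rwa [Fintype.card_fin] at this
        omega)
  rw [zero_add] at h
  exact h

end Pool.Agent.W944.En
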