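import Pool.Agent.W966.Mm.Tree

/-!
# Probabilistic algorithms whose output is a vector: encoders
-/

set_option linter.unusedSectionVars false

namespace Pool.Agent.W944.En

open Pool.Agent.W966.Mm Filter

/-- A probabilistic algorithm with queries over `k`, whose input is a pair of `n × n` matrices and
whose output is a vector with `s` entries. It can multiply or divide two available linear
combinations, make a query (it then receives an element of `k`, about which nothing is assumed),
test whether a linear combination is `0` and branch, choose one of `r + 1` continuations uniformly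
at random (the continuations may contain different constants, so this includes the random choice
of an element of a finite subset of `k`), and stop with an output. The results of the
multiplications and divisions and the answers to the queries can be used in all later linear
combinations. -/
inductive ETree (k : Type) (n s : ℕ) : Type
  | output (M : Fin s → Lin k n) : ETree k n s
  | mul (f h : Lin k n) (next : ETree k n s) : ETree k n s
  | div (f h : Lin k n) (next : ETree k n s) : ETree k n s
  | query (next : ETree k n s) : ETree k n s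
  | test (f : Lin k n) (yes no : ETree k n s) : ETree k n s
  | choose (r : ℕ) (next : Fin (r + 1) → ETree k n s) : ETree k n s

/-- On the input `A, B`, and from the state in which `g 0, …, g (l - 1)` are the results obtained
so far, the algorithm can reach an output `o` with `E o` in the following sense: for some outcomes
of its random choices and some answers to its queries it makes at most `L` multiplications and
divisions, at most `Q` queries and no division by `0`, and stops with an output `o` such that
`E o` holds. Additions, subtractions, multiplications by constants, tests and random choices are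
not counted. -/
def ETree.Can {k : Type} [Field k] {n s : ℕ} (A B : Matrix (Fin n) (Fin n) k)
    (E : (Fin s → k) → Prop) : ETree k n s → ℕ → (ℕ → k) → ℕ → ℕ → Prop
  | .output M, l, g, _, _ => E fun a => (M a).val A B l g
  | .mul f h next, l, g, L, Q => 0 < L ∧ next.Can A B E (l + 1)
      (Function.update g l (f.val A B l g * h.val A B l g)) (L - 1) Q
  | .div f h next, l, g, L, Q => 0 < L ∧ h.val A B l g ≠ 0 ∧ next.Can A B E (l + 1)
      (Function.update g l (f.val A B l g / h.val A B l g)) (L - 1) Q
  | .query next, l, g, L, Q => 0 < Q ∧ ∃ v : k, next.Can A B E (l + 1)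
      (Function.update g l v) L (Q - 1)
  | .test f yes no, l, g, L, Q => (f.val A B l g = 0 ∧ yes.Can A B E l g L Q) ∨
      (f.val A B l g ≠ 0 ∧ no.Can A B E l g L Q)
  | .choose _ next, l, g, L, Q => ∃ i, (next i).Can A B E l g L Q

section

variable {k k' : Type} [Field k] [Field k'] {n s : ℕ}

/-- The linear combination with the coefficients mapped by a homomorphism. -/
def lmap (φ : k →+* k') (f : Lin k n) : Lin k' n where
  c := φ f.c
  a i j := φ (f.a i j)
  b i j := φ (f.b i j)
  r i := φ (f.r i)

lemma val_lmap (φ : k →+* k') (f : Lin k n) (A B : Matrix (Fin n) (Fin n) k) (l : ℕ)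
    (g : ℕ → k) :
    (lmap φ f).val (A.map φ) (B.map φ) l (fun s => φ (g s)) = φ (f.val A B l g) := by
  simp only [Lin.val, lmap, map_add, map_sum, map_mul, Matrix.map_apply]

/-- The algorithm with the coefficients mapped by a homomorphism. -/
def ETree.tmap (φ : k →+* k') : ETree k n s → ETree k' n s
  | .output M => .output fun a => lmap φ (M a)
  | .mul f h next => .mul (lmap φ f) (lmap φ h) (next.tmap φ)
  | .div f h next => .div (lmap φ f) (lmap φ h) (next.tmap φ)
  | .query next => .query (next.tmap φ)
  | .test f yes no => .test (lmap φ f) (yes.tmap φ) (no.tmap φ)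
  | .choose r next => .choose r fun i => (next i).tmap φ

lemma upd_map {α β : Type} (φ : α → β) (g : ℕ → α) (l : ℕ) (v : α) :
    (fun s => φ (Function.update g l v s)) = Function.update (fun s => φ (g s)) l (φ v) := by
  funext s
  by_cases h : s = l
  · subst h; simp
  · simp [Function.update_of_ne h]

lemma can_mono {A B : Matrix (Fin n) (Fin n) k} {E E' : (Fin s → k) → Prop}
    (hE : ∀ o, E o → E' o) (t : ETree k n s) :
    ∀ (l : ℕ) (g : ℕ → k) (L Q : ℕ), t.Can A B E l g L Q → t.Can A B E' l g L Q := by
  induction t with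
  | output M => intro l g L Q h; exact hE _ h
  | mul f h next ih => intro l g L Q hh; exact ⟨hh.1, ih _ _ _ _ hh.2⟩
  | div f h next ih => intro l g L Q hh; exact ⟨hh.1, hh.2.1, ih _ _ _ _ hh.2.2⟩
  | query next ih =>
    intro l g L Q hh
    obtain ⟨h1, v, hv⟩ := hh
    exact ⟨h1, v, ih _ _ _ _ hv⟩
  | test f yes no ihy ihn =>
    intro l g L Q hh
    rcases hh with ⟨h1, h2⟩ | ⟨h1, h2⟩
    · exact Or.inl ⟨h1, ihy _ _ _ _ h2⟩
    · exact Or.inr ⟨h1, ihn _ _ _ _ h2⟩
  | choose r next ih =>
    intro l g L Q hh
    obtain ⟨i, hi⟩ := hh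
    exact ⟨i, ih i _ _ _ _ hi⟩

lemma can_exists {A B : Matrix (Fin n) (Fin n) k} {E : (Fin s → k) → Prop} (t : ETree k n s) :
    ∀ (l : ℕ) (g : ℕ → k) (L Q : ℕ), t.Can A B E l g L Q →
      ∃ o, E o ∧ t.Can A B (fun o' => o' = o) l g L Q := by
  induction t with
  | output M => intro l g L Q h; exact ⟨_, h, rfl⟩
  | mul f h next ih =>
    intro l g L Q hh
    obtain ⟨o, h1, h2⟩ := ih _ _ _ _ hh.2
    exact ⟨o, h1, hh.1, h2⟩
  | div f h next ih =>
    intro l g L Q hh
    obtain ⟨o, h1, h2⟩ := ih _ _ _ _ hh.2.2
    exact ⟨o, h1, hh.1, hh.2.1, h2⟩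
  | query next ih =>
    intro l g L Q hh
    obtain ⟨h0, v, hv⟩ := hh
    obtain ⟨o, h1, h2⟩ := ih _ _ _ _ hv
    exact ⟨o, h1, h0, v, h2⟩
  | test f yes no ihy ihn =>
    intro l g L Q hh
    rcases hh with ⟨h0, h⟩ | ⟨h0, h⟩
    · obtain ⟨o, h1, h2⟩ := ihy _ _ _ _ h
      exact ⟨o, h1, Or.inl ⟨h0, h2⟩⟩
    · obtain ⟨o, h1, h2⟩ := ihn _ _ _ _ h
      exact ⟨o, h1, Or.inr ⟨h0, h2⟩⟩
  | choose r next ih =>
    intro l g L Q hh
    obtain ⟨i, hi⟩ := hh
    obtain ⟨o, h1, h2⟩ := ih i _ _ _ _ hi
    exact ⟨o, h1, i, h2⟩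

/-- Homomorphisms carry runs to runs. -/
lemma can_map (φ : k →+* k') {A B : Matrix (Fin n) (Fin n) k} {o : Fin s → k}
    (t : ETree k n s) :
    ∀ (l : ℕ) (g : ℕ → k) (L Q : ℕ), t.Can A B (fun o' => o' = o) l g L Q →
      (t.tmap φ).Can (A.map φ) (B.map φ) (fun o' => o' = fun a => φ (o a)) l
        (fun s => φ (g s)) L Q := by
  induction t with
  | output M =>
    intro l g L Q h
    have h' : (fun a => (M a).val A B l g) = o := h
    show (fun a => (lmap φ (M a)).val (A.map φ) (B.map φ) l (fun s => φ (g s))) = fun a => φ (o a)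
    rw [← h']
    funext a
    exact val_lmap φ (M a) A B l g
  | mul f h next ih =>
    intro l g L Q hh
    refine ⟨hh.1, ?_⟩
    have := ih _ _ _ _ hh.2
    rw [upd_map, map_mul, ← val_lmap, ← val_lmap] at this
    exact this
  | div f h next ih =>
    intro l g L Q hh
    refine ⟨hh.1, ?_, ?_⟩
    · rw [val_lmap]
      exact (map_ne_zero φ).mpr hh.2.1
    · have := ih _ _ _ _ hh.2.2
      rw [upd_map, map_div₀, ← val_lmap, ← val_lmap] at this
      exact this
  | query next ih =>
    intro l g L Q hh
    obtain ⟨h0, v, hv⟩ := hh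
    refine ⟨h0, φ v, ?_⟩
    have := ih _ _ _ _ hv
    rw [upd_map] at this
    exact this
  | test f yes no ihy ihn =>
    intro l g L Q hh
    rcases hh with ⟨h0, h⟩ | ⟨h0, h⟩
    · refine Or.inl ⟨?_, ihy _ _ _ _ h⟩
      rw [val_lmap, h0, map_zero]
    · refine Or.inr ⟨?_, ihn _ _ _ _ h⟩
      rw [val_lmap]
      exact (map_ne_zero φ).mpr h0
  | choose r next ih =>
    intro l g L Q hh
    obtain ⟨i, hi⟩ := hh
    exact ⟨i, ih i _ _ _ _ hi⟩

/-- **The steps of a run.** The algorithm has coefficients in `k`, the input is over `k'`. -/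
theorem path (φ : k →+* k') {X Y : Matrix (Fin n) (Fin n) k'} {o : Fin s → k'}
    (t : ETree k n s) :
    ∀ (l : ℕ) (g : ℕ → k') (L Q : ℕ), (t.tmap φ).Can X Y (fun o' => o' = o) l g L Q →
      ∃ (l' : ℕ) (g' : ℕ → k') (K : Finset ℕ) (M : Fin s → Lin k n),
        l ≤ l' ∧ (∀ s < l, g' s = g s) ∧ K ⊆ Finset.Ico l l' ∧ K.card ≤ Q ∧
        l' ≤ l + L + K.card ∧
        (∀ s, l ≤ s → s < l' → s ∉ K → ∃ u v : Lin k n,
          g' s = (lmap φ u).val X Y s g' * (lmap φ v).val X Y s g' ∨
          ((lmap φ v).val X Y s g' ≠ 0 ∧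
            g' s = (lmap φ u).val X Y s g' / (lmap φ v).val X Y s g')) ∧
        ∀ a, (lmap φ (M a)).val X Y l' g' = o a := by
  classical
  induction t with
  | output M =>
    intro l g L Q h
    exact ⟨l, g, ∅, M, le_rfl, fun _ _ => rfl, by simp, by simp, by simp,
      fun s h1 h2 => by omega, fun a => congrFun h a⟩
  | mul f h next ih =>
    intro l g L Q hh
    have hL : 0 < L := hh.1
    obtain ⟨l', g', K, M, h1, h2, h3, h4, h5, h6, h7⟩ := ih _ _ _ _ hh.2
    have h2' : ∀ s < l, g' s = g s := fun s hs => by
      rw [h2 s (by omega), Function.update_of_ne (by omega)]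
    refine ⟨l', g', K, M, by omega, h2', h3.trans (Finset.Ico_subset_Ico_left (by omega)), h4,
      by omega, fun s hs1 hs2 hs3 => ?_, h7⟩
    rcases Nat.eq_or_lt_of_le hs1 with rfl | hlt
    · refine ⟨f, h, Or.inl ?_⟩
      rw [h2 l (by omega), Function.update_self, Lin.val_congr _ X Y h2',
        Lin.val_congr _ X Y h2']
    · exact h6 s (by omega) hs2 hs3
  | div f h next ih =>
    intro l g L Q hh
    have hL : 0 < L := hh.1
    obtain ⟨l', g', K, M, h1, h2, h3, h4, h5, h6, h7⟩ := ih _ _ _ _ hh.2.2
    have h2' : ∀ s < l, g' s = g s := fun s hs => by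
      rw [h2 s (by omega), Function.update_of_ne (by omega)]
    refine ⟨l', g', K, M, by omega, h2', h3.trans (Finset.Ico_subset_Ico_left (by omega)), h4,
      by omega, fun s hs1 hs2 hs3 => ?_, h7⟩
    rcases Nat.eq_or_lt_of_le hs1 with rfl | hlt
    · refine ⟨f, h, Or.inr ⟨?_, ?_⟩⟩
      · rw [Lin.val_congr _ X Y h2']
        exact hh.2.1
      · rw [h2 l (by omega), Function.update_self, Lin.val_congr _ X Y h2',
          Lin.val_congr _ X Y h2']
    · exact h6 s (by omega) hs2 hs3
  | query next ih =>
    intro l g L Q hh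
    obtain ⟨hQ, v, hv⟩ := hh
    obtain ⟨l', g', K, M, h1, h2, h3, h4, h5, h6, h7⟩ := ih _ _ _ _ hv
    have h2' : ∀ s < l, g' s = g s := fun s hs => by
      rw [h2 s (by omega), Function.update_of_ne (by omega)]
    have hlK : l ∉ K := fun hl => by
      have := Finset.mem_Ico.mp (h3 hl)
      omega
    refine ⟨l', g', insert l K, M, by omega, h2', ?_, ?_, ?_, fun s hs1 hs2 hs3 => ?_, h7⟩
    · intro s hs
      rcases Finset.mem_insert.mp hs with rfl | hs
      · exact Finset.mem_Ico.mpr ⟨le_rfl, by omega⟩
      · have := Finset.mem_Ico.mp (h3 hs)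
        exact Finset.mem_Ico.mpr ⟨by omega, this.2⟩
    · rw [Finset.card_insert_of_notMem hlK]
      omega
    · rw [Finset.card_insert_of_notMem hlK]
      omega
    · have hsl : s ≠ l := fun h => hs3 (h ▸ Finset.mem_insert_self _ _)
      exact h6 s (by omega) hs2 fun h => hs3 (Finset.mem_insert_of_mem h)
  | test f yes no ihy ihn =>
    intro l g L Q hh
    rcases hh with h | h
    · exact ihy l g L Q h.2
    · exact ihn l g L Q h.2
  | choose r next ih =>
    intro l g L Q hh
    obtain ⟨i, hi⟩ := hh
    exact ih i l g L Q hi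

end

end Pool.Agent.W944.En
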